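import Pool.Agent.Work.MP_78fef3_co.R.UpperR

-- merged part: Pool.Agent.Work.MP_78fef3_co.Y.Glue
section
/-! Gluing independent samples along sunflowers. -/

namespace Pool.Agent.Work.MP_78fef3_co.Y

open Finset Pool.Agent.Work.MP_78fef3_co.S Pool.Agent.Work.MP_78fef3_co.R

variable {α : Type} [Fintype α] [DecidableEq α]

/-- The kernel `S` together with the part of `U` of colour `i`. -/
def tup {r : ℕ} (χ : α → Fin r) (U S : Finset α) (i : Fin r) : Finset α :=
  S ∪ U.filter fun e => χ e = i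

omit [Fintype α] in
theorem sum_tup {r : ℕ} {A : Type} [AddCommMonoid A] (χ : α → Fin r) {U S : Finset α}
    (h : Disjoint S U) (g : α → A) :
    ∑ i, ∑ e ∈ tup χ U S i, g e = r • ∑ e ∈ S, g e + ∑ e ∈ U, g e := by
  have h1 : ∀ i, ∑ e ∈ tup χ U S i, g e =
      ∑ e ∈ S, g e + ∑ e ∈ U.filter (fun e => χ e = i), g e :=
    fun i => sum_union (h.mono_right (filter_subset _ _))
  simp only [h1, sum_add_distrib, sum_const, card_univ, Fintype.card_fin, sum_fiberwise]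

omit [Fintype α] in
theorem tup_inj {k : ℕ} (hk : 1 ≤ k) (χ : α → Fin (k + 1)) {U S U' S' : Finset α}
    (h : Disjoint S U) (h' : Disjoint S' U') (e : tup χ U S = tup χ U' S') : U = U' ∧ S = S' := by
  have h1 : ∀ U S : Finset α, ∀ x, x ∈ S ↔ ∀ i, x ∈ tup χ U S i := fun U S x => by
    refine ⟨fun a i => mem_union_left _ a, fun a => ?_⟩
    by_contra b
    have c := fun i => (mem_filter.1 ((mem_union.1 (a i)).resolve_left b)).2
    have d := congrArg Fin.val ((c 0).symm.trans (c (Fin.last k)))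
    simp only [Fin.val_zero, Fin.val_last] at d
    omega
  have h2 : ∀ U S : Finset α, Disjoint S U → ∀ x, x ∈ U ↔ x ∉ S ∧ x ∈ tup χ U S (χ x) :=
    fun U S a x => ⟨fun b => ⟨disjoint_right.1 a b, mem_union_right _ (mem_filter.2 ⟨b, rfl⟩)⟩,
      fun b => (mem_filter.1 ((mem_union.1 b.2).resolve_left b.1)).1⟩
  have h3 : S = S' := Finset.ext fun x => by rw [h1 U S, h1 U' S', e]
  exact ⟨Finset.ext fun x => by rw [h2 U S h, h2 U' S' h', e, h3], h3⟩

/-- More than `M` sets of size at most `m` contain a sunflower with `r` different sets. -/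
def SunH (α : Type) [DecidableEq α] (r m M : ℕ) : Prop :=
  ∀ F : Finset (Finset α), (∀ Q ∈ F, Q.card ≤ m) → M < F.card →
    ∃ (χ : α → Fin r) (U S : Finset α), Disjoint S U ∧ (∀ i, tup χ U S i ∈ F) ∧
      Function.Injective (tup χ U S)

theorem sunH (k m Λ : ℕ) (hΛ : Fintype.card α < 2 ^ Λ) (h1 : 1 ≤ Λ) :
    SunH α (k + 1) m ((m + 1) * (128 * ((k + 1) * Λ) ^ 3) ^ m) := by
  classical
  intro F hF hc
  obtain ⟨j, hj, h⟩ := exists_lt_card_fiber_of_mul_lt_card_of_maps_to (s := F) (t := range (m + 1))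
    (f := fun Q => Q.card) (n := (128 * ((k + 1) * Λ) ^ 3) ^ m)
    (fun Q hQ => mem_range.2 (Nat.lt_succ_of_le (hF Q hQ))) (by rwa [card_range])
  obtain ⟨Q, hQ⟩ := card_pos.1 ((Nat.zero_le _).trans_lt h)
  obtain ⟨K, P, hK, hP, hD⟩ := flower (F.filter fun Q => Q.card = j) j (k + 1) Λ (by omega) h1
    ((mem_filter.1 hQ).2 ▸ (card_le_univ Q).trans_lt hΛ) (fun A hA => (mem_filter.1 hA).2)
    ((Nat.pow_le_pow_right (by positivity) (Nat.lt_succ_iff.1 (mem_range.1 hj))).trans_lt h)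
  have hχ : ∀ e, ∃ c : Fin (k + 1), ∀ i, e ∈ P i \ K → c = i := fun e => by
    by_cases a : ∃ i, e ∈ P i \ K
    · obtain ⟨i, hi⟩ := a
      refine ⟨i, fun i' hi' => ?_⟩
      by_contra b
      exact disjoint_left.1 (hD i i' b) hi hi'
    · exact ⟨0, fun i hi => absurd ⟨i, hi⟩ a⟩
  choose χ hχ using hχ
  have key : ∀ i, tup χ (univ.biUnion fun i => P i \ K) K i = P i := fun i => by
    ext x
    simp only [tup, mem_union, mem_filter, mem_biUnion, mem_univ, true_and]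
    constructor
    · rintro (a | ⟨⟨i', a⟩, b⟩)
      · exact (hP i).2 a
      · rw [← b, hχ x i' a]
        exact (mem_sdiff.1 a).1
    · intro a
      by_cases b : x ∈ K
      · exact Or.inl b
      · exact Or.inr ⟨⟨i, mem_sdiff.2 ⟨a, b⟩⟩, hχ x i (mem_sdiff.2 ⟨a, b⟩)⟩
  refine ⟨χ, univ.biUnion fun i => P i \ K, K, (disjoint_biUnion_right _ _ _).2 fun i _ =>
    disjoint_sdiff, fun i => key i ▸ (mem_filter.1 (hP i).1).1, fun i i' e => ?_⟩
  rw [key, key] at e
  by_contra b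
  have c := hD i i' b
  rw [← e, disjoint_self] at c
  exact (sdiff_nonempty_of_card_lt_card ((mem_filter.1 (hP i).1).2 ▸ hK)).ne_empty c

/-- A colouring that agrees with many prescribed partial colourings. -/
theorem fixc {X γ : Type} [Fintype X] [Fintype γ] [DecidableEq γ] [Nonempty γ] (ν : X → ℝ)
    (hν : ∀ x, 0 ≤ ν x) (D : X → Finset α) (h : X → α → γ) (n : ℕ)
    (hD : ∀ x, ν x ≠ 0 → (D x).card ≤ n) :
    ∃ χ : α → γ, ∑ x, ν x ≤
      (Fintype.card γ : ℝ) ^ n * ∑ x, if ∀ e ∈ D x, χ e = h x e then ν x else 0 := by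
  have hc : (1 : ℝ) ≤ Fintype.card γ := Nat.one_le_cast.2 Fintype.card_pos
  obtain ⟨χ, hχ⟩ := exists_av_le fun χ : α → γ =>
    ∑ x, ν x * ∏ e ∈ D x, if χ e = h x e then (1 : ℝ) else 0
  refine ⟨χ, ?_⟩
  rw [av_sum] at hχ
  have h1 : ∀ x, ν x ≤ (Fintype.card γ : ℝ) ^ n *
      av fun χ : α → γ => ν x * ∏ e ∈ D x, if χ e = h x e then (1 : ℝ) else 0 := fun x => by
    rw [av_const_mul, av_prod (D x) fun e c => if c = h x e then (1 : ℝ) else 0,
      prod_congr rfl (g := fun _ => (Fintype.card γ : ℝ)⁻¹) fun e _ => by simp [av], prod_const,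
      inv_pow, mul_left_comm]
    by_cases a : ν x = 0
    · simp [a]
    refine le_mul_of_one_le_right (hν x) ?_
    rw [← div_eq_mul_inv, one_le_div (by positivity)]
    exact pow_le_pow_right₀ hc (hD x a)
  refine (sum_le_sum fun x _ => h1 x).trans ?_
  rw [← mul_sum]
  refine mul_le_mul_of_nonneg_left (hχ.trans_eq (sum_congr rfl fun x _ => ?_)) (by positivity)
  rw [prod_boole]
  split_ifs <;> simp

theorem marg {X : Type} [Fintype X] [DecidableEq X] {r n : ℕ} (p : X → ℝ) (hp : ∑ x, p x = 1)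
    (ι : Fin r → Fin n) (hι : Function.Injective ι) (F : (Fin r → X) → ℝ) :
    ∑ x : Fin n → X, (∏ j, p (x j)) * F (fun i => x (ι i)) =
      ∑ y : Fin r → X, (∏ i, p (y i)) * F y := by
  rw [push (fun x : Fin n → X => ∏ j, p (x j)) (fun x i => x (ι i)) F]
  refine sum_congr rfl fun y _ => ?_
  congr 1
  have h1 : ∀ x : Fin n → X, ((∏ j, p (x j)) * if (fun i => x (ι i)) = y then 1 else 0) =
      ∏ j, p (x j) * ∏ i with ι i = j, if x j = y i then (1 : ℝ) else 0 := fun x => by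
    rw [prod_mul_distrib, ind_all _ (fun i => x (ι i) = y i) funext_iff,
      ← prod_fiberwise univ ι]
    congr 1
    exact prod_congr rfl fun j _ => prod_congr rfl fun i hi => by rw [(mem_filter.1 hi).2]
  rw [sum_congr rfl fun x _ => h1 x, ← Fintype.piFinset_univ,
    ← prod_univ_sum (fun _ => univ) fun j c => p c * ∏ i with ι i = j, if c = y i then (1 : ℝ) else 0,
    ← prod_fiberwise univ ι]
  refine prod_congr rfl fun j _ => ?_
  by_cases a : ∃ i, ι i = j
  · obtain ⟨i, rfl⟩ := a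
    have b : (univ.filter fun i' => ι i' = ι i) = {i} := by
      ext i'
      simp [hι.eq_iff]
    simp [b]
  · have b : (univ.filter fun i' => ι i' = j) = ∅ := filter_eq_empty_iff.2 fun i _ c => a ⟨i, c⟩
    simp [b, hp]

/-- The tuple is a sunflower; petals may be empty. -/
def Sun {r : ℕ} (T : Fin r → Finset α) : Prop :=
  ∃ (χ : α → Fin r) (U S : Finset α), Disjoint S U ∧ tup χ U S = T

open Classical in
theorem sun_prob {k m M : ℕ} (hM : SunH α (k + 1) m M) (w : Finset α → ℝ) (hw : ∀ Q, 0 ≤ w Q)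
    (hm : ∀ Q, w Q ≠ 0 → Q.card ≤ m) :
    (∑ Q, w Q) ^ (k + 1) ≤ (((k + 1) * (M + 1) : ℕ) : ℝ) ^ (k + 1) *
      ∑ T : Fin (k + 1) → Finset α, if Sun T then ∏ i, w (T i) else 0 := by
  have h0 : ∀ T : Fin (k + 1) → Finset α, 0 ≤ if Sun T then ∏ i, w (T i) else 0 := fun T => by
    split_ifs
    · exact prod_nonneg fun i _ => hw _
    · exact le_rfl
  obtain ⟨W, hW⟩ : ∃ W, W = ∑ Q, w Q := ⟨_, rfl⟩
  obtain ⟨n, hn⟩ : ∃ n, n = (k + 1) * (M + 1) := ⟨_, rfl⟩
  rw [← hW, ← hn]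
  rcases (hW ▸ sum_nonneg fun Q _ => hw Q : 0 ≤ W).eq_or_lt with a | a
  · rw [← a, zero_pow (Nat.succ_ne_zero k)]
    exact mul_nonneg (by positivity) (sum_nonneg fun T _ => h0 T)
  have hp : ∑ Q, w Q / W = 1 := by rw [← sum_div, ← hW, div_self a.ne']
  have h1 : ∑ x : Fin n → Finset α, ∏ j, w (x j) / W = 1 := by
    rw [← Fintype.piFinset_univ, ← prod_univ_sum (fun _ => univ) fun _ c => w c / W]
    simp [hp]
  have h2 : ∀ x : Fin n → Finset α, ∏ j, w (x j) / W ≤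
      ∑ ι : Fin (k + 1) → Fin n with Function.Injective ι,
        (∏ j, w (x j) / W) * if Sun (fun i => x (ι i)) then 1 else 0 := fun x => by
    have b : 0 ≤ ∏ j, w (x j) / W := prod_nonneg fun j _ => div_nonneg (hw _) a.le
    rcases b.eq_or_lt with c | c
    · simp [← c]
    have d : ∀ j, (x j).card ≤ m := fun j => hm _ fun e =>
      c.ne' (prod_eq_zero (mem_univ j) (by rw [e, zero_div]))
    obtain ⟨ι, e1, e2⟩ : ∃ ι : Fin (k + 1) → Fin n, Function.Injective ι ∧ Sun fun i => x (ι i) := by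
      rcases lt_or_ge M (univ.image x).card with e | e
      · obtain ⟨χ, U, S, g1, g2, g3⟩ := hM _ (fun Q hQ => by
          obtain ⟨j, -, rfl⟩ := mem_image.1 hQ
          exact d j) e
        choose ι g4 g5 using fun i => mem_image.1 (g2 i)
        exact ⟨ι, fun i i' g => g3 (by rw [← g5, ← g5, g]), χ, U, S, g1, funext fun i => (g5 i).symm⟩
      · have : Nonempty (Fin n) := ⟨⟨0, by rw [hn]; positivity⟩⟩
        obtain ⟨S, -, g⟩ := exists_le_card_fiber_of_mul_le_card_of_maps_to (s := univ)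
          (t := univ.image x) (f := x) (n := k + 1) (fun j hj => mem_image_of_mem x hj)
          (univ_nonempty.image x) (by
            rw [card_univ, Fintype.card_fin, mul_comm]
            exact (Nat.mul_le_mul_left _ (by omega)).trans hn.ge)
        obtain ⟨B, g1, g2⟩ := exists_subset_card_eq g
        refine ⟨fun i => (equivFinOfCardEq g2).symm i, fun i i' g3 =>
          (equivFinOfCardEq g2).symm.injective (Subtype.ext g3), fun _ => 0, ∅, S,
          disjoint_empty_right _, funext fun i => ?_⟩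
        rw [(mem_filter.1 (g1 ((equivFinOfCardEq g2).symm i).2)).2]
        simp [tup]
    refine le_trans (le_of_eq ?_) (single_le_sum (f := fun ι : Fin (k + 1) → Fin n =>
      (∏ j, w (x j) / W) * if Sun (fun i => x (ι i)) then 1 else 0)
      (fun ι _ => mul_nonneg b (by split_ifs <;> norm_num)) (mem_filter.2 ⟨mem_univ ι, e1⟩))
    rw [if_pos e2, mul_one]
  have h3 := h1.symm.trans_le (sum_le_sum fun x _ => h2 x)
  rw [sum_comm, sum_congr rfl fun ι hι => marg (fun Q => w Q / W) hp ι (mem_filter.1 hι).2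
    fun T => if Sun T then 1 else 0, sum_const, nsmul_eq_mul] at h3
  have h4 : ∑ T : Fin (k + 1) → Finset α, ((∏ i, w (T i) / W) * if Sun T then 1 else 0) =
      (∑ T : Fin (k + 1) → Finset α, if Sun T then ∏ i, w (T i) else 0) / W ^ (k + 1) := by
    rw [sum_div]
    refine sum_congr rfl fun T _ => ?_
    rw [prod_div_distrib, prod_const, card_univ, Fintype.card_fin]
    split_ifs <;> simp
  rw [h4, ← mul_div_assoc, one_le_div (by positivity)] at h3
  refine h3.trans (mul_le_mul_of_nonneg_right ?_ (sum_nonneg fun T _ => h0 T))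
  have h5 := card_le_univ (univ.filter fun ι : Fin (k + 1) → Fin n => Function.Injective ι)
  rw [Fintype.card_fun, Fintype.card_fin, Fintype.card_fin] at h5
  exact_mod_cast h5

theorem sum_one_coord {X : Type} [Fintype X] {k : ℕ} (w h : X → ℝ) (i : Fin (k + 1)) :
    ∑ T : Fin (k + 1) → X, (∏ j, w (T j)) * h (T i) = (∑ Q, w Q) ^ k * ∑ Q, w Q * h Q := by
  have h1 : ∀ T : Fin (k + 1) → X, (∏ j, w (T j)) * h (T i) =
      ∏ j, w (T j) * if j = i then h (T j) else 1 := fun T => by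
    rw [prod_mul_distrib, prod_ite_eq']
    simp
  rw [sum_congr rfl fun T _ => h1 T, ← Fintype.piFinset_univ,
    ← prod_univ_sum (fun _ => univ) fun j c => w c * if j = i then h c else 1,
    Fin.prod_univ_succAbove _ i, mul_comm]
  simp [Fin.succAbove_ne]

theorem glue {Y Ω : Type} [Fintype Y] [Fintype Ω] [DecidableEq Ω] {k m M : ℕ} (hk : 1 ≤ k)
    (hM : SunH α (k + 1) m M) (W0 : Y → ℝ) (w : Y → Finset α → ℝ) (φ : Finset α → Ω)
    (π : Y → Ω → ℝ) {G : ℝ} (hG : 0 < G)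
    (hΓ : (((k + 1) * (M + 1) : ℕ) : ℝ) ^ (k + 1) * ((k + 1 : ℕ) : ℝ) ^ ((k + 1) * m) ≤ G)
    (hW0 : ∀ y, 0 ≤ W0 y) (hw : ∀ y Q, 0 ≤ w y Q) (hm : ∀ y Q, w y Q ≠ 0 → Q.card ≤ m)
    (hπ : ∀ y ω, 0 ≤ π y ω) (hZ : ∀ y, ∑ ω, π y ω ≤ G)
    (htot : 2 * ∑ y, W0 y ≤ G * ∑ y, ∑ Q, w y Q) :
    ∃ (χ : α → Fin (k + 1)) (ν : Y → Finset α → Finset α → ℝ), (∀ y U S, 0 ≤ ν y U S) ∧
      ∑ y, W0 y ≤ G ^ 2 * ∑ y, ∑ U, ∑ S, ν y U S ∧
      (∀ y U S, ν y U S ≠ 0 → Disjoint S U ∧ (∀ i, w y (tup χ U S i) ≠ 0) ∧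
        ∀ i, φ (tup χ U S i) = φ (tup χ U S 0)) ∧
      (∀ y U S, ν y U S * (W0 y * π y (φ (tup χ U S 0))) ^ k ≤
        G ^ (2 * k) * ∏ i, w y (tup χ U S i)) ∧
      ∀ y i (h : Finset α → ℝ), (∀ Q, 0 ≤ h Q) →
        ∑ U, ∑ S, ν y U S * h (tup χ U S i) ≤ ∑ Q, w y Q * h Q := by
  classical
  let v : Y → Ω → Finset α → ℝ := fun y ω Q => if φ Q = ω then w y Q else 0
  have v0 : ∀ y ω Q, 0 ≤ v y ω Q := fun y ω Q => by
    simp only [v]
    split_ifs
    · exact hw _ _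
    · exact le_rfl
  have v1 : ∀ y ω Q, v y ω Q ≠ 0 → φ Q = ω ∧ w y Q ≠ 0 := fun y ω Q a => by
    by_cases b : φ Q = ω
    · exact ⟨b, by simpa [v, b] using a⟩
    · exact absurd (if_neg b) a
  have v2 : ∀ y Q, ∑ ω, v y ω Q = w y Q := fun y Q => by simp [v]
  let W : Y → Ω → ℝ := fun y ω => ∑ Q, v y ω Q
  have W1 : ∀ y ω, 0 ≤ W y ω := fun y ω => sum_nonneg fun Q _ => v0 y ω Q
  let g : Y → Ω → (Fin (k + 1) → Finset α) → ℝ := fun y ω T =>
    if W0 y * π y ω ≤ G ^ 2 * W y ω then (∏ i, v y ω (T i)) / W y ω ^ k else 0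
  have g0 : ∀ y ω T, 0 ≤ g y ω T := fun y ω T => by
    simp only [g]
    split_ifs
    · exact div_nonneg (prod_nonneg fun i _ => v0 _ _ _) (pow_nonneg (W1 _ _) _)
    · exact le_rfl
  have g1 : ∀ y ω T, g y ω T ≠ 0 → ∀ i, φ (T i) = ω ∧ w y (T i) ≠ 0 := fun y ω T a i =>
    v1 y ω _ fun b => a (by simp only [g, prod_eq_zero (f := fun i => v y ω (T i)) (mem_univ i) b,
      zero_div, ite_self])
  have hs : ∀ T : Fin (k + 1) → Finset α, ∃ (χ : α → Fin (k + 1)) (U S : Finset α),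
      Sun T → Disjoint S U ∧ tup χ U S = T := fun T => by
    by_cases a : Sun T
    · obtain ⟨χ, U, S, b⟩ := a
      exact ⟨χ, U, S, fun _ => b⟩
    · exact ⟨fun _ => 0, ∅, ∅, fun b => absurd b a⟩
  choose χ0 U0 S0 hs using hs
  obtain ⟨χ, hχ⟩ := fixc (X := (Y × Ω) × (Fin (k + 1) → Finset α))
    (fun x => if Sun x.2 then g x.1.1 x.1.2 x.2 else 0)
    (fun x => by split_ifs <;> [exact g0 _ _ _; exact le_rfl]) (fun x => U0 x.2) (fun x => χ0 x.2)
    ((k + 1) * m) fun x a => by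
      have b : Sun x.2 := by
        by_contra b
        exact a (if_neg b)
      rw [if_pos b] at a
      have c := sum_tup (χ0 x.2) (hs _ b).1 fun _ => 1
      simp only [(hs _ b).2, ← card_eq_sum_ones] at c
      have d := sum_le_card_nsmul univ (fun i => (x.2 i).card) m fun i _ => hm _ _ (g1 _ _ _ a i).2
      rw [card_univ, Fintype.card_fin, smul_eq_mul] at d
      omega
  let P : Finset (Finset α × Finset α) := univ.filter fun x => Disjoint x.2 x.1
  have P1 : ∀ F : (Fin (k + 1) → Finset α) → ℝ,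
      ∑ U, ∑ S, (if Disjoint S U then F (tup χ U S) else 0) =
        ∑ T ∈ P.image fun x => tup χ x.1 x.2, F T := fun F => by
    rw [sum_image fun x hx x' hx' e => Prod.ext
      (tup_inj hk χ (mem_filter.1 hx).2 (mem_filter.1 hx').2 e).1
      (tup_inj hk χ (mem_filter.1 hx).2 (mem_filter.1 hx').2 e).2, sum_filter,
      Fintype.sum_prod_type]
  refine ⟨χ, fun y U S => if Disjoint S U then ∑ ω, g y ω (tup χ U S) else 0, fun y U S => ?_, ?_,
    fun y U S a => ?_, fun y U S => ?_, fun y i h h0 => ?_⟩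
  · beta_reduce
    split_ifs
    · exact sum_nonneg fun ω _ => g0 _ _ _
    · exact le_rfl
  · obtain ⟨n, hn⟩ : ∃ n : ℝ, n = (((k + 1) * (M + 1) : ℕ) : ℝ) ^ (k + 1) := ⟨_, rfl⟩
    have n0 : 0 ≤ n := by rw [hn]; positivity
    have a1 : ∀ y ω, G ^ 2 * W y ω ≤ W0 y * π y ω +
        G ^ 2 * (n * ∑ T, if Sun T then g y ω T else 0) := fun y ω => by
      by_cases b : W0 y * π y ω ≤ G ^ 2 * W y ω
      · refine le_add_of_nonneg_of_le (mul_nonneg (hW0 _) (hπ _ _))
          (mul_le_mul_of_nonneg_left ?_ (by positivity))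
        rcases (W1 y ω).eq_or_lt with c | c
        · rw [← c]
          exact mul_nonneg n0 (sum_nonneg fun T _ => by
            split_ifs <;> [exact g0 _ _ _; exact le_rfl])
        have d := sun_prob hM (v y ω) (v0 y ω) fun Q e => hm _ _ (v1 _ _ _ e).2
        rw [← hn] at d
        have e : ∑ T, (if Sun T then g y ω T else 0) =
            (∑ T : Fin (k + 1) → Finset α, if Sun T then ∏ i, v y ω (T i) else 0) / W y ω ^ k := by
          rw [sum_div]
          refine sum_congr rfl fun T _ => ?_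
          simp only [g, if_pos b]
          split_ifs <;> simp
        rw [e, ← mul_div_assoc, le_div_iff₀ (pow_pos c k), ← pow_succ']
        exact d
      · refine le_add_of_le_of_nonneg (not_le.1 b).le (mul_nonneg (by positivity)
          (mul_nonneg n0 (sum_nonneg fun T _ => by split_ifs <;> [exact g0 _ _ _; exact le_rfl])))
    have a2 := sum_le_sum fun y (_ : y ∈ univ) => sum_le_sum fun ω (_ : ω ∈ univ) => a1 y ω
    have a3 : ∀ y, ∑ ω, W y ω = ∑ Q, w y Q := fun y => by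
      rw [sum_comm]
      exact sum_congr rfl fun Q _ => v2 y Q
    simp only [sum_add_distrib, ← mul_sum, a3] at a2
    have a4 : ∑ y, W0 y * ∑ ω, π y ω ≤ G * ∑ y, W0 y := by
      rw [mul_sum]
      exact sum_le_sum fun y _ => (mul_le_mul_of_nonneg_left (hZ y) (hW0 y)).trans_eq (mul_comm _ _)
    rw [Fintype.sum_prod_type, Fintype.sum_prod_type, Fintype.sum_prod_type,
      Fintype.sum_prod_type, Fintype.card_fin] at hχ
    have a5 : ∑ y, ∑ ω, ∑ T, (if ∀ e ∈ U0 T, χ e = χ0 T e then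
        (if Sun T then g y ω T else 0) else 0) ≤
        ∑ y, ∑ U, ∑ S, if Disjoint S U then ∑ ω, g y ω (tup χ U S) else 0 := by
      refine sum_le_sum fun y _ => ?_
      rw [P1 fun T => ∑ ω, g y ω T, sum_comm, ← univ_inter (P.image _), ← sum_ite_mem]
      refine sum_le_sum fun T _ => ?_
      by_cases b : (∀ e ∈ U0 T, χ e = χ0 T e) ∧ Sun T
      · rw [if_pos (mem_image.2 ⟨(U0 T, S0 T), mem_filter.2 ⟨mem_univ _, (hs T b.2).1⟩, ?_⟩)]
        · simp only [if_pos b.1, if_pos b.2, le_refl]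
        · refine Eq.trans (funext fun i => ?_) (hs T b.2).2
          simp only [tup]
          rw [filter_congr fun e he => by rw [b.1 e he]]
      · refine le_trans (le_of_eq (sum_eq_zero fun ω _ => ?_)) ?_
        · split_ifs with c d
          · exact absurd ⟨c, d⟩ b
          · rfl
          · rfl
        · split_ifs
          · exact sum_nonneg fun ω _ => g0 _ _ _
          · exact le_rfl
    obtain ⟨A, hA⟩ : ∃ A, A = ∑ y, ∑ U, ∑ S,
      if Disjoint S U then ∑ ω, g y ω (tup χ U S) else 0 := ⟨_, rfl⟩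
    have A0 : 0 ≤ A := hA ▸ sum_nonneg fun y _ => sum_nonneg fun U _ => sum_nonneg fun S _ => by
      split_ifs
      · exact sum_nonneg fun ω _ => g0 _ _ _
      · exact le_rfl
    rw [← hA] at a5 ⊢
    have a6 := mul_le_mul_of_nonneg_left (hχ.trans (mul_le_mul_of_nonneg_left a5 (by positivity))) n0
    rw [← hn] at hΓ
    have a7 := mul_le_mul_of_nonneg_right hΓ A0
    have a8 := mul_le_mul_of_nonneg_left htot hG.le
    have a9 := mul_le_mul_of_nonneg_left (a6.trans ((mul_assoc _ _ _).symm.trans_le a7))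
      (sq_nonneg G)
    refine le_of_mul_le_mul_left ?_ hG
    nlinarith
  · have b : Disjoint S U := by
      by_contra b
      exact a (if_neg b)
    simp only [if_pos b] at a
    obtain ⟨ω, -, c⟩ := exists_ne_zero_of_sum_ne_zero a
    exact ⟨b, fun i => (g1 _ _ _ c i).2, fun i => (g1 _ _ _ c i).1.trans (g1 _ _ _ c 0).1.symm⟩
  · have b : 0 ≤ G ^ (2 * k) * ∏ i, w y (tup χ U S i) :=
      mul_nonneg (by positivity) (prod_nonneg fun i _ => hw _ _)
    beta_reduce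
    split_ifs
    · rw [sum_eq_single (φ (tup χ U S 0)) (fun ω _ c => by
        by_contra d
        exact c (g1 _ _ _ d 0).1.symm) (fun c => absurd (mem_univ _) c)]
      simp only [g]
      split_ifs with c
      · refine (mul_le_mul_of_nonneg_left (pow_le_pow_left₀ (mul_nonneg (hW0 _) (hπ _ _)) c k)
          (div_nonneg (prod_nonneg fun i _ => v0 _ _ _) (pow_nonneg (W1 _ _) _))).trans ?_
        rw [mul_pow, ← pow_mul, mul_left_comm]
        refine mul_le_mul_of_nonneg_left (le_trans ?_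
          (prod_le_prod (f := fun i => v y (φ (tup χ U S 0)) (tup χ U S i))
            (fun i _ => v0 _ _ _) fun i _ => ?_)) (by positivity)
        · rw [div_mul_eq_mul_div]
          exact div_le_of_le_mul₀ (pow_nonneg (W1 _ _) _) (prod_nonneg fun i _ => v0 _ _ _) le_rfl
        · simp only [v]
          split_ifs
          · exact le_rfl
          · exact hw _ _
      · rwa [zero_mul]
    · rwa [zero_mul]
  · simp only [ite_mul, zero_mul]
    rw [P1 fun T => (∑ ω, g y ω T) * h (T i)]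
    refine (sum_le_sum_of_subset_of_nonneg (subset_univ _) fun T _ _ =>
      mul_nonneg (sum_nonneg fun ω _ => g0 _ _ _) (h0 _)).trans ?_
    simp only [sum_mul, ← v2]
    rw [sum_comm, sum_comm (f := fun Q ω => v y ω Q * h Q)]
    refine sum_le_sum fun ω _ => ?_
    have b : 0 ≤ ∑ Q, v y ω Q * h Q := sum_nonneg fun Q _ => mul_nonneg (v0 _ _ _) (h0 _)
    simp only [g]
    split_ifs
    · simp only [div_mul_eq_mul_div, ← sum_div]
      rw [sum_one_coord, mul_comm]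
      exact div_le_of_le_mul₀ (pow_nonneg (W1 _ _) _) b le_rfl
    · simpa using b

end Pool.Agent.Work.MP_78fef3_co.Y
end

-- merged part: Pool.Agent.Work.MP_78fef3_co.Y.Kraft
section
/-! Degree vectors modulo `k + 1` and the Kraft inequality. -/

namespace Pool.Agent.Work.MP_78fef3_co.Y

open Finset Pool.Agent.Work.MP_78fef3_co.S Pool.Agent.Work.MP_78fef3_co.R

variable {α β : Type} [Fintype α] [DecidableEq α] [Fintype β] [DecidableEq β] {k : ℕ}

/-- Degrees modulo `k + 1`; an edge `e` is counted in the layers from `a e` on. -/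
def vec (f : Fin (k + 1) → α → β) (a : α → ℕ) (S : Finset α) (x : Fin (k + 1) × β) :
    ZMod (k + 1) :=
  ∑ e ∈ S, if a e ≤ x.1 ∧ f x.1 e = x.2 then 1 else 0

/-- The price of a vertex. -/
noncomputable def rho (f : Fin (k + 1) → α → β) (E : Finset α) (p : ℕ → ℝ)
    (Y : Finset (Fin (k + 1) × β)) (x : Fin (k + 1) × β) : ℝ :=
  if x ∈ Y then 1 else if x.2 ∈ E.image (f x.1) then Real.exp (-p x.1) else 0

/-- The weight of a degree vector. -/
noncomputable def pw (f : Fin (k + 1) → α → β) (E : Finset α) (p : ℕ → ℝ)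
    (Y : Finset (Fin (k + 1) × β)) (ω : Fin (k + 1) × β → ZMod (k + 1)) : ℝ :=
  ∏ x, if ω x = 0 then 1 else rho f E p Y x

omit [Fintype α] [DecidableEq α] [Fintype β] in
theorem rho_nonneg (f : Fin (k + 1) → α → β) (E : Finset α) (p : ℕ → ℝ)
    (Y : Finset (Fin (k + 1) × β)) (x : Fin (k + 1) × β) : 0 ≤ rho f E p Y x := by
  unfold rho
  split_ifs <;> positivity

omit [Fintype α] [DecidableEq α] in
theorem pw_nonneg (f : Fin (k + 1) → α → β) (E : Finset α) (p : ℕ → ℝ)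
    (Y : Finset (Fin (k + 1) × β)) (ω : Fin (k + 1) × β → ZMod (k + 1)) : 0 ≤ pw f E p Y ω :=
  prod_nonneg fun x _ => by
    split_ifs
    · exact zero_le_one
    · exact rho_nonneg _ _ _ _ _

omit [Fintype α] [DecidableEq α] in
theorem pw_sum (f : Fin (k + 1) → α → β) (E : Finset α) (p : ℕ → ℝ) (T : ℝ)
    (hT : ∀ t, ((E.image (f t)).card : ℝ) ≤ T * Real.exp (p t)) (Y : Finset (Fin (k + 1) × β)) :
    ∑ ω, pw f E p Y ω ≤ Real.exp ((k + 1) * (Y.card + (k + 1) * T)) := by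
  have h1 : ∑ x, rho f E p Y x ≤ Y.card + (k + 1) * T := by
    have a : ∀ x, rho f E p Y x ≤ (if x ∈ Y then 1 else 0) +
        if x.2 ∈ E.image (f x.1) then Real.exp (-p x.1) else 0 := fun x => by
      unfold rho
      split_ifs <;> simp [Real.exp_nonneg]
    refine (sum_le_sum fun x _ => a x).trans ?_
    rw [sum_add_distrib, sum_ite_mem, univ_inter, sum_const, nsmul_eq_mul, mul_one,
      Fintype.sum_prod_type]
    refine add_le_add le_rfl ((sum_le_card_nsmul _ _ T fun t _ => ?_).trans_eq (by simp))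
    simp only []
    rw [sum_ite_mem, univ_inter, sum_const, nsmul_eq_mul, Real.exp_neg, ← div_eq_mul_inv,
      div_le_iff₀ (Real.exp_pos _)]
    exact hT t
  unfold pw
  rw [← Fintype.piFinset_univ,
    ← prod_univ_sum (fun _ => univ) fun x c => if c = 0 then 1 else rho f E p Y x]
  refine le_trans ?_ (Real.exp_le_exp.2 (mul_le_mul_of_nonneg_left h1 (by positivity)))
  rw [mul_sum, Real.exp_sum]
  refine prod_le_prod (fun x _ => sum_nonneg fun c _ => ?_) fun x _ => ?_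
  · split_ifs
    · exact zero_le_one
    · exact rho_nonneg _ _ _ _ _
  · have a : ∀ c : ZMod (k + 1), (if c = 0 then 1 else rho f E p Y x) ≤
        rho f E p Y x + if c = 0 then 1 else 0 := fun c => by
      split_ifs <;> simp [rho_nonneg]
    refine (sum_le_sum fun c _ => a c).trans (le_trans (le_of_eq ?_) (Real.add_one_le_exp _))
    simp [sum_add_distrib, ZMod.card]

omit [Fintype α] [DecidableEq α] in
theorem pw_ge (f : Fin (k + 1) → α → β) {E S : Finset α} (hS : S ⊆ E) {p : ℕ → ℝ}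
    (hp : ∀ t, 0 ≤ p t) (Y : Finset (Fin (k + 1) × β)) {a b : α → ℕ} (hab : ∀ e, a e ≤ b e)
    (h : ∀ x ∉ Y, vec f b S x = 0) :
    Real.exp (-∑ e ∈ S, ∑ t ∈ Ico (a e) (b e), p t) ≤ pw f E p Y (vec f a S) := by
  let n : α → Fin (k + 1) × β → ℝ := fun e x =>
    if f x.1 e = x.2 then (if (x.1 : ℕ) ∈ Ico (a e) (b e) then p x.1 else 0) else 0
  have n0 : ∀ e x, 0 ≤ n e x := fun e x => by
    simp only [n]
    split_ifs
    · exact hp _
    · exact le_rfl
    · exact le_rfl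
  have h1 : ∑ x, ∑ e ∈ S, n e x ≤ ∑ e ∈ S, ∑ t ∈ Ico (a e) (b e), p t := by
    rw [sum_comm]
    refine sum_le_sum fun e _ => ?_
    rw [Fintype.sum_prod_type]
    simp only [n, sum_ite_eq, mem_univ, if_true]
    rw [Fin.sum_univ_eq_sum_range fun t => if t ∈ Ico (a e) (b e) then p t else 0, sum_ite_mem]
    exact sum_le_sum_of_subset_of_nonneg inter_subset_right fun t _ _ => hp t
  refine (Real.exp_le_exp.2 (neg_le_neg h1)).trans ?_
  rw [← sum_neg_distrib, Real.exp_sum]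
  refine prod_le_prod (fun x _ => Real.exp_nonneg _) fun x _ => ?_
  have c : Real.exp (-∑ e ∈ S, n e x) ≤ 1 :=
    Real.exp_le_one_iff.2 (neg_nonpos.2 (sum_nonneg fun e _ => n0 e x))
  split_ifs with d
  · exact c
  unfold rho
  by_cases hY : x ∈ Y
  · rwa [if_pos hY]
  obtain ⟨e, e1, e2⟩ : ∃ e ∈ S, f x.1 e = x.2 ∧ (x.1 : ℕ) ∈ Ico (a e) (b e) := by
    by_contra g
    refine d (Eq.trans (sum_congr rfl fun e he => if_congr ?_ rfl rfl) (h x hY))
    exact ⟨fun g1 => ⟨not_lt.1 fun g2 => g ⟨e, he, g1.2, mem_Ico.2 ⟨g1.1, g2⟩⟩, g1.2⟩,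
      fun g1 => ⟨(hab e).trans g1.1, g1.2⟩⟩
  rw [if_neg hY, if_pos (mem_image.2 ⟨e, hS e1, e2.1⟩)]
  refine Real.exp_le_exp.2 (neg_le_neg (le_trans (le_of_eq ?_)
    (single_le_sum (fun e _ => n0 e x) e1)))
  simp only [n, if_pos e2.1, if_pos e2.2]

/-- A subset of `E` with at most `L T` edges and degrees at most `L`. -/
def Ok (f : Fin (k + 1) → α → β) (E : Finset α) (T L : ℕ) (Q : Finset α) : Prop :=
  Q ⊆ E ∧ Q.card ≤ L * T ∧ ∀ t v, deg (f t) Q v ≤ L

omit [Fintype α] [DecidableEq α] [Fintype β] in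
theorem Ok.mono {f : Fin (k + 1) → α → β} {E : Finset α} {T L L' : ℕ} {Q Q' : Finset α}
    (h : Ok f E T L Q) (hQ : Q' ⊆ Q) (hL : L ≤ L') : Ok f E T L' Q' :=
  ⟨hQ.trans h.1, (card_le_card hQ).trans (h.2.1.trans (Nat.mul_le_mul_right _ hL)),
    fun t v => (card_le_card (filter_subset_filter _ hQ)).trans ((h.2.2 t v).trans hL)⟩

omit [Fintype α] [Fintype β] in
theorem ok_tup {f : Fin (k + 1) → α → β} {E : Finset α} {T L : ℕ} {χ : α → Fin (k + 1)}
    {U S : Finset α} (hd : Disjoint S U) (h : ∀ i, Ok f E T L (tup χ U S i)) :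
    Ok f E T (L * (k + 1)) U := by
  have h1 : ∀ (g : α → ℕ) (n : ℕ), (∀ i, ∑ e ∈ tup χ U S i, g e ≤ n) →
      ∑ e ∈ U, g e ≤ n * (k + 1) := fun g n a => by
    have b := sum_le_card_nsmul univ _ n fun i _ => a i
    rw [sum_tup χ hd, card_univ, Fintype.card_fin, smul_eq_mul, smul_eq_mul, mul_comm _ n] at b
    omega
  refine ⟨fun e he => (h (χ e)).1 (mem_union_right _ (mem_filter.2 ⟨he, rfl⟩)), ?_, fun t v => ?_⟩
  · rw [card_eq_sum_ones, mul_right_comm]
    exact h1 _ _ fun i => card_eq_sum_ones _ ▸ (h i).2.1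
  · rw [deg, card_filter]
    exact h1 _ _ fun i => (card_filter _ _).symm.trans_le ((h i).2.2 t v)

omit [Fintype α] [Fintype β] in
theorem vec_tup {f : Fin (k + 1) → α → β} {a : α → ℕ} {χ : α → Fin (k + 1)} {U S : Finset α}
    (hd : Disjoint S U) (h : ∀ i, vec f a (tup χ U S i) = vec f a (tup χ U S 0)) :
    vec f a U = 0 := by
  funext x
  have h1 := sum_tup χ hd fun e => if a e ≤ x.1 ∧ f x.1 e = x.2 then (1 : ZMod (k + 1)) else 0
  change ∑ i, vec f a (tup χ U S i) x = _ at h1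
  rw [sum_congr rfl fun i _ => congrFun (h i) x, sum_const, card_univ, Fintype.card_fin,
    nsmul_eq_mul, nsmul_eq_mul, ZMod.natCast_self, zero_mul, zero_mul, zero_add] at h1
  exact h1.symm

/-- No nonempty set of bounded degree has all degrees divisible by `k + 1`. -/
def FA (f : Fin (k + 1) → α → β) (E : Finset α) (D : ℕ) : Prop :=
  ∀ U ⊆ E, U.Nonempty → (∀ t v, deg (f t) U v ≤ D) → vec f 0 U ≠ 0

/-- Partial sums of the prices. -/
def kap (p : ℕ → ℝ) (j : ℕ) : ℝ := ∑ t ∈ range j, p (t + 1)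

/-- The price of the open slots of a set. -/
def cost (p : ℕ → ℝ) (op : α → ℕ) (S : Finset α) : ℝ := ∑ e ∈ S, kap p (op e)

omit [Fintype α] in
theorem kraft (hk : 1 ≤ k) {f : Fin (k + 1) → α → β} {E : Finset α} {p : ℕ → ℝ}
    (hp : ∀ t, 0 ≤ p t) {T L M : ℕ} (hF : FA f E (L * (k + 1))) (hM : SunH α (k + 1) (L * T) M)
    (op : α → ℕ) (Y : Finset (Fin (k + 1) × β)) (F : Finset (Finset α))
    (h : ∀ S ∈ F, Ok f E T L S ∧ ∀ x ∉ Y, vec f (fun e => op e + 1) S x = 0) :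
    ∑ S ∈ F, Real.exp (-cost p op S) ≤
      Real.exp (p 0 * (L * T : ℕ)) * M * ∑ ω, pw f E p Y ω := by
  have h1 : ∀ S ∈ F, Real.exp (-cost p op S) ≤
      Real.exp (p 0 * (L * T : ℕ)) * pw f E p Y (vec f 0 S) := fun S hS => by
    refine le_trans ?_ (mul_le_mul_of_nonneg_left
      (pw_ge f (h S hS).1.1 hp Y (fun e => Nat.zero_le _) (h S hS).2) (Real.exp_nonneg _))
    rw [← Real.exp_add, Real.exp_le_exp]
    simp only [Pi.zero_apply, ← range_eq_Ico, sum_range_succ', sum_add_distrib, sum_const,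
      nsmul_eq_mul, cost, kap]
    have a := mul_le_mul_of_nonneg_right (Nat.cast_le (α := ℝ).2 (h S hS).1.2.1) (hp 0)
    linarith
  refine (sum_le_sum h1).trans ?_
  rw [← mul_sum, mul_assoc, mul_sum univ, ← sum_fiberwise F (vec f 0)]
  refine mul_le_mul_of_nonneg_left (sum_le_sum fun ω _ => ?_) (Real.exp_nonneg _)
  rw [sum_congr rfl fun S hS => by rw [(mem_filter.1 hS).2], sum_const, nsmul_eq_mul]
  refine mul_le_mul_of_nonneg_right (Nat.cast_le.2 (not_lt.1 fun c => ?_)) (pw_nonneg _ _ _ _ _)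
  obtain ⟨χ, U, S, a1, a2, a3⟩ := hM _ (fun Q hQ => (h Q (mem_filter.1 hQ).1).1.2.1) c
  have b := ok_tup a1 fun i => (h _ (mem_filter.1 (a2 i)).1).1
  refine hF U b.1 (nonempty_iff_ne_empty.2 fun d => ?_) b.2.2
    (vec_tup a1 fun i => (mem_filter.1 (a2 i)).2.trans (mem_filter.1 (a2 0)).2.symm)
  have e := congrArg Fin.val (a3 (show tup χ U S 0 = tup χ U S (Fin.last k) by simp [tup, d]))
  simp only [Fin.val_zero, Fin.val_last] at e
  omega

end Pool.Agent.Work.MP_78fef3_co.Y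
end

-- merged part: Pool.Agent.Work.MP_78fef3_co.Y.Geom
section
/-! Groups of closed slots, balls, and the decomposition of a kernel. -/

namespace Pool.Agent.Work.MP_78fef3_co.Y

open Finset Pool.Agent.Work.MP_78fef3_co.S Pool.Agent.Work.MP_78fef3_co.R

section
variable {α : Type} [DecidableEq α]

theorem groups (r n : ℕ) : ∀ C : Finset α, C.card = r * n → ∃ g : α → Finset α,
    ∀ e ∈ C, e ∈ g e ∧ g e ⊆ C ∧ (g e).card = r ∧ ∀ e' ∈ g e, g e' = g e := by
  induction n with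
  | zero => exact fun C h => ⟨fun _ => ∅, by simp [card_eq_zero.1 h]⟩
  | succ n ih =>
    intro C h
    obtain ⟨B, b1, b2⟩ := exists_subset_card_eq (s := C) (n := r) (by rw [h, mul_add]; omega)
    obtain ⟨g, hg⟩ := ih (C \ B) (by rw [card_sdiff_of_subset b1, h, b2, mul_add]; omega)
    refine ⟨fun e => if e ∈ B then B else g e, fun e he => ?_⟩
    by_cases a : e ∈ B
    · simp only [if_pos a]
      exact ⟨a, b1, b2, fun e' c => if_pos c⟩
    · obtain ⟨c1, c2, c3, c4⟩ := hg e (mem_sdiff.2 ⟨he, a⟩)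
      simp only [if_neg a]
      exact ⟨c1, c2.trans sdiff_subset, c3, fun e' c =>
        (if_neg (mem_sdiff.1 (c2 c)).2).trans (c4 e' c)⟩

theorem groups_dvd {r : ℕ} (g : α → Finset α) (X : Finset α)
    (h : ∀ e ∈ X, e ∈ g e ∧ g e ⊆ X ∧ (g e).card = r ∧ ∀ e' ∈ g e, g e' = g e) : r ∣ X.card := by
  rw [card_eq_sum_card_image g X]
  refine dvd_sum fun b hb => ?_
  obtain ⟨e, he, rfl⟩ := mem_image.1 hb
  obtain ⟨-, c2, c3, c4⟩ := h e he
  have : (X.filter fun x => g x = g e) = g e := Finset.ext fun x =>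
    ⟨fun a => (mem_filter.1 a).2 ▸ (h x (mem_filter.1 a).1).1,
      fun a => mem_filter.2 ⟨c2 a, c4 x a⟩⟩
  rw [this, c3]

/-- Balls for a neighbourhood map. -/
def ball (nb : α → Finset α) (e : α) : ℕ → Finset α
  | 0 => {e}
  | j + 1 => (ball nb e j).biUnion nb

theorem ball_card {nb : α → Finset α} {b : ℕ} (h : ∀ x, (nb x).card ≤ b) (e : α) (j : ℕ) :
    (ball nb e j).card ≤ b ^ j := by
  induction j with
  | zero => simp [ball]
  | succ j ih =>
    exact (card_biUnion_le_card_mul _ _ b fun x _ => h x).trans (Nat.mul_le_mul_right _ ih)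

theorem ball_mono {nb nb' : α → Finset α} (h : ∀ x, nb x ⊆ nb' x) (e : α) (j : ℕ) :
    ball nb e j ⊆ ball nb' e j := by
  induction j with
  | zero => exact Subset.rfl
  | succ j ih => exact biUnion_subset.2 fun x hx => (h x).trans (subset_biUnion_of_mem nb' (ih hx))

theorem ball_sub {nb : α → Finset α} {S : Finset α} (h : ∀ x ∈ S, nb x ⊆ S) {e : α} (he : e ∈ S)
    (j : ℕ) : ball nb e j ⊆ S := by
  induction j with
  | zero => exact singleton_subset_iff.2 he
  | succ j ih => exact biUnion_subset.2 fun x hx => h x (ih hx)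

theorem ball_self {nb : α → Finset α} (h : ∀ x, x ∈ nb x) (e : α) (j : ℕ) : e ∈ ball nb e j := by
  induction j with
  | zero => exact mem_singleton_self e
  | succ j ih => exact mem_biUnion.2 ⟨e, ih, h e⟩

theorem ball_inv [Fintype α] {nb : α → Finset α} {b : ℕ} (h : ∀ x, (nb x).card ≤ b)
    (hs : ∀ x y, x ∈ nb y → y ∈ nb x) (j : ℕ) :
    ∀ x, (univ.filter fun e => x ∈ ball nb e j).card ≤ b ^ j := by
  induction j with
  | zero => exact fun x => card_le_one.2 fun y hy z hz =>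
      (mem_singleton.1 (mem_filter.1 hy).2).symm.trans (mem_singleton.1 (mem_filter.1 hz).2)
  | succ j ih =>
    intro x
    refine (card_le_card (t := (nb x).biUnion fun y => univ.filter fun e => y ∈ ball nb e j)
      fun e he => ?_).trans ((card_biUnion_le_card_mul _ _ _ fun y _ => ih y).trans ?_)
    · obtain ⟨y, a, c⟩ := mem_biUnion.1 (mem_filter.1 he).2
      exact mem_biUnion.2 ⟨y, hs _ _ c, mem_filter.2 ⟨mem_univ _, a⟩⟩
    · rw [pow_succ']
      exact Nat.mul_le_mul_right _ (h x)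

theorem ball_grow {nb : α → Finset α} (h : ∀ x, x ∈ nb x) (e : α) (j : ℕ) :
    (∀ x ∈ ball nb e j, nb x ⊆ ball nb e j) ∨ j + 1 ≤ (ball nb e j).card := by
  induction j with
  | zero => exact Or.inr (by simp [ball])
  | succ j ih =>
    have a : ball nb e j ⊆ ball nb e (j + 1) := fun x hx => mem_biUnion.2 ⟨x, hx, h x⟩
    by_cases b : ball nb e (j + 1) ⊆ ball nb e j
    · exact Or.inl fun x hx => subset_biUnion_of_mem nb (b hx)
    · exact Or.inr (Nat.succ_le_of_lt ((ih.resolve_left fun c => b (biUnion_subset.2 c)).trans_lt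
        (card_lt_card ⟨a, b⟩)))

theorem separated [Fintype α] (B : α → Finset α) (hB : ∀ e, e ∈ B e) {n : ℕ}
    (h1 : ∀ e, (B e).card ≤ n) (h2 : ∀ x, (univ.filter fun e => x ∈ B e).card ≤ n)
    (O : Finset α) : ∃ A ⊆ O, O.card ≤ A.card * (n * n) ∧
      ∀ e ∈ A, ∀ e' ∈ A, e ≠ e' → Disjoint (B e) (B e') := by
  obtain ⟨A, a1, a2⟩ := exists_max_image (O.powerset.filter fun A =>
    ∀ e ∈ A, ∀ e' ∈ A, e ≠ e' → Disjoint (B e) (B e')) card ⟨∅, by simp⟩
  obtain ⟨a3, a4⟩ := mem_filter.1 a1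
  refine ⟨A, mem_powerset.1 a3, (card_le_card (t := A.biUnion fun e' => (B e').biUnion fun x =>
    univ.filter fun e => x ∈ B e) fun e he => ?_).trans (card_biUnion_le_card_mul _ _ _ fun e' _ =>
      (card_biUnion_le_card_mul _ _ n fun x _ => h2 x).trans (Nat.mul_le_mul_right _ (h1 e'))), a4⟩
  by_contra b
  have c : ∀ e' ∈ A, Disjoint (B e) (B e') := fun e' d => disjoint_left.2 fun x x1 x2 =>
    b (mem_biUnion.2 ⟨e', d, mem_biUnion.2 ⟨x, x2, mem_filter.2 ⟨mem_univ _, x1⟩⟩⟩)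
  have d := a2 (insert e A) (mem_filter.2 ⟨mem_powerset.2 (insert_subset he (mem_powerset.1 a3)),
    fun x x1 y y1 xy => by
      rcases mem_insert.1 x1 with rfl | x2 <;> rcases mem_insert.1 y1 with rfl | y2
      · exact absurd rfl xy
      · exact c y y2
      · exact (c x x2).symm
      · exact a4 x x2 y y2 xy⟩)
  rw [card_insert_of_notMem fun g => disjoint_left.1 (c e g) (hB e) (hB e)] at d
  omega

end

variable {α β : Type} [Fintype α] [DecidableEq α] [DecidableEq β] {k : ℕ}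

omit [Fintype α] [DecidableEq α] in
theorem vec_zero (f : Fin (k + 1) → α → β) (a : α → ℕ) (S : Finset α) (x : Fin (k + 1) × β) :
    vec f a S x = 0 ↔ k + 1 ∣ (S.filter fun e => a e ≤ x.1 ∧ f x.1 e = x.2).card := by
  rw [← ZMod.natCast_eq_zero_iff, card_filter, vec]
  push_cast
  rfl

theorem geom (f : Fin (k + 1) → α → β) (a : α → ℕ) {L : ℕ} (cl : α → Fin L) (ρ : ℕ)
    (Q O : Finset α) (hQ : vec f a Q = 0) :
    ∃ A ⊆ O, O.card ≤ A.card * (k + 1) ^ (4 * ρ) ∧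
      ∃ K : Finset α → Fin L → Finset α, ∀ S, (∀ c, K S c ⊆ S) ∧
        (∀ c c', c ≠ c' → Disjoint (K S c) (K S c')) ∧
        (∀ c x, (∀ e ∈ Q \ S, f x.1 e ≠ x.2) → S ⊆ Q → vec f a (K S c) x = 0) ∧
        (∀ c, ∀ e ∈ A, e ∈ K S c → cl e = c) ∧
        (ρ + 1) * (A ∩ (S \ univ.biUnion (K S))).card ≤ (S \ univ.biUnion (K S)).card := by
  classical
  choose g hg using fun x : Fin (k + 1) × β => groups (k + 1) _ _
    (Nat.mul_div_cancel' ((vec_zero f a Q x).1 (congrFun hQ x))).symm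
  let G : Fin (k + 1) → α → Finset α := fun t e => if e ∈ Q ∧ a e ≤ t then g (t, f t e) e else {e}
  have G1 : ∀ (t : Fin (k + 1)) e, e ∈ Q ∧ a e ≤ t → e ∈ G t e ∧
      G t e ⊆ (Q.filter fun e' => a e' ≤ t ∧ f t e' = f t e) ∧ (G t e).card = k + 1 ∧
      ∀ e' ∈ G t e, G t e' = G t e := fun t e h => by
    obtain ⟨c1, c2, c3, c4⟩ := hg (t, f t e) e (mem_filter.2 ⟨h.1, h.2, rfl⟩)
    simp only [G, if_pos h]
    refine ⟨c1, c2, c3, fun e' d => ?_⟩
    obtain ⟨d1, d2, d3⟩ := mem_filter.1 (c2 d)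
    rw [if_pos ⟨d1, d2⟩, show f t e' = f t e from d3]
    exact c4 e' d
  have G2 : ∀ t e, e ∈ G t e ∧ (G t e).card ≤ k + 1 ∧ ∀ e' ∈ G t e, G t e' = G t e := fun t e => by
    by_cases h : e ∈ Q ∧ a e ≤ t
    · exact ⟨(G1 t e h).1, (G1 t e h).2.2.1.le, (G1 t e h).2.2.2⟩
    · have b : G t e = {e} := if_neg h
      exact ⟨b ▸ mem_singleton_self e, by simp [b], fun e' c => by
        rw [mem_singleton.1 (b ▸ c : e' ∈ ({e} : Finset α))]⟩
  let nb : Finset α → α → Finset α := fun S e =>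
    univ.biUnion fun t => if G t e ⊆ S then G t e else {e}
  have n1 : ∀ S e, e ∈ nb S e := fun S e => mem_biUnion.2 ⟨0, mem_univ _, by
    split_ifs
    · exact (G2 0 e).1
    · exact mem_singleton_self e⟩
  have n2 : ∀ x e, x ∈ nb univ e ↔ ∃ t, x ∈ G t e := fun x e => by simp [nb]
  have n3 : ∀ S e, nb S e ⊆ nb univ e := fun S e => biUnion_subset.2 fun t _ x hx => by
    split_ifs at hx
    · exact (n2 x e).2 ⟨t, hx⟩
    · exact mem_singleton.1 hx ▸ n1 univ x
  have n4 : ∀ S, ∀ e ∈ S, nb S e ⊆ S := fun S e he => biUnion_subset.2 fun t _ => by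
    split_ifs with h
    · exact h
    · exact singleton_subset_iff.2 he
  have n5 : ∀ e, (nb univ e).card ≤ (k + 1) ^ 2 := fun e =>
    (card_biUnion_le_card_mul _ _ (k + 1) fun t _ => by
      rw [if_pos (subset_univ _)]
      exact (G2 t e).2.1).trans_eq (by rw [card_univ, Fintype.card_fin, sq])
  obtain ⟨A, a1, a2, a3⟩ := separated (fun e => ball (nb univ) e ρ)
    (fun e => ball_self (n1 univ) e ρ) (fun e => ball_card n5 e ρ)
    (ball_inv n5 (fun x y h => by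
      obtain ⟨t, ht⟩ := (n2 x y).1 h
      exact (n2 y x).2 ⟨t, (G2 t y).2.2 x ht ▸ (G2 t y).1⟩) ρ) O
  have a4 : ∀ S, ∀ e ∈ A, ∀ e' ∈ A, ∀ x, x ∈ ball (nb S) e ρ → x ∈ ball (nb S) e' ρ → e = e' :=
    fun S e h e' h' x x1 x2 => by
      by_contra b
      exact disjoint_left.1 (a3 e h e' h' b) (ball_mono (n3 S) e ρ x1) (ball_mono (n3 S) e' ρ x2)
  refine ⟨A, a1, a2.trans_eq (by rw [← pow_mul, ← pow_add]; congr 2; omega), fun S c =>
    (A.filter fun e => e ∈ S ∧ cl e = c ∧ ∀ x ∈ ball (nb S) e ρ, nb S x ⊆ ball (nb S) e ρ).biUnion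
      fun e => ball (nb S) e ρ, fun S => ⟨fun c => biUnion_subset.2 fun e he =>
        ball_sub (n4 S) (mem_filter.1 he).2.1 ρ, fun c c' h => disjoint_left.2 fun x x1 x2 => ?_,
        fun c x h hS => (vec_zero _ _ _ _).2 (groups_dvd (G x.1) _ fun e he => ?_),
        fun c e he h => ?_, ?_⟩⟩
  · obtain ⟨e, e1, e2⟩ := mem_biUnion.1 x1
    obtain ⟨e', e3, e4⟩ := mem_biUnion.1 x2
    refine h ((mem_filter.1 e1).2.2.1.symm.trans ?_)
    rw [a4 S e (mem_filter.1 e1).1 e' (mem_filter.1 e3).1 x e2 e4]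
    exact (mem_filter.1 e3).2.2.1
  · obtain ⟨e1, e2, e3⟩ := mem_filter.1 he
    obtain ⟨y, y1, y2⟩ := mem_biUnion.1 e1
    obtain ⟨-, y3, -, y4⟩ := mem_filter.1 y1
    obtain ⟨c1, c2, c3, c4⟩ := G1 x.1 e ⟨hS (ball_sub (n4 S) y3 ρ y2), e2⟩
    have d : G x.1 e ⊆ S := fun z hz => by
      by_contra b
      exact h z (mem_sdiff.2 ⟨(mem_filter.1 (c2 hz)).1, b⟩) ((mem_filter.1 (c2 hz)).2.2.trans e3)
    refine ⟨c1, fun z hz => mem_filter.2 ⟨mem_biUnion.2 ⟨y, y1, y4 e y2 (mem_biUnion.2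
      ⟨x.1, mem_univ _, by rwa [if_pos d]⟩)⟩, (mem_filter.1 (c2 hz)).2.1,
      (mem_filter.1 (c2 hz)).2.2.trans e3⟩, c3, c4⟩
  · obtain ⟨y, y1, y2⟩ := mem_biUnion.1 h
    rw [a4 S e he y (mem_filter.1 y1).1 e (ball_self (n1 S) e ρ) y2]
    exact (mem_filter.1 y1).2.2.1
  · have key : ∀ X : Finset α, (ρ + 1) * (A ∩ X).card ≤
        ((A ∩ X).biUnion fun e => ball (nb S) e ρ).card →
        (∀ e ∈ A ∩ X, ball (nb S) e ρ ⊆ X) → (ρ + 1) * (A ∩ X).card ≤ X.card :=
      fun X b c => b.trans (card_le_card (biUnion_subset.2 c))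
    refine key _ ?_ fun e he x hx => ?_
    · rw [card_biUnion fun e he e' he' h => disjoint_left.2 fun x x1 x2 =>
        h (a4 S e (mem_inter.1 he).1 e' (mem_inter.1 he').1 x x1 x2), mul_comm]
      refine card_nsmul_le_sum _ _ _ fun e he => (ball_grow (n1 S) e ρ).resolve_left fun h => ?_
      obtain ⟨e1, e2⟩ := mem_inter.1 he
      exact (mem_sdiff.1 e2).2 (mem_biUnion.2 ⟨cl e, mem_univ _, mem_biUnion.2 ⟨e, mem_filter.2
        ⟨e1, (mem_sdiff.1 e2).1, rfl, h⟩, ball_self (n1 S) e ρ⟩⟩)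
    · obtain ⟨e1, e2⟩ := mem_inter.1 he
      refine mem_sdiff.2 ⟨ball_sub (n4 S) (mem_sdiff.1 e2).1 ρ hx, fun h => (mem_sdiff.1 e2).2 ?_⟩
      obtain ⟨c, -, h1⟩ := mem_biUnion.1 h
      obtain ⟨y, y1, y2⟩ := mem_biUnion.1 h1
      exact mem_biUnion.2 ⟨c, mem_univ _, mem_biUnion.2 ⟨y, y1,
        a4 S e e1 y (mem_filter.1 y1).1 x hx y2 ▸ ball_self (n1 S) e ρ⟩⟩

end Pool.Agent.Work.MP_78fef3_co.Y
end

-- merged part: Pool.Agent.Work.MP_78fef3_co.Y.Round
section
/-! States and one round of gluing. -/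

namespace Pool.Agent.Work.MP_78fef3_co.Y

open Finset Real Pool.Agent.Work.MP_78fef3_co.S Pool.Agent.Work.MP_78fef3_co.R

variable {α β : Type} [Fintype α] [DecidableEq α] [Fintype β] [DecidableEq β] {k : ℕ}

/-- The mass of the sets that contain `F`. -/
noncomputable def up (μ : Finset α → ℝ) (F : Finset α) : ℝ := ∑ Q, μ Q * if F ⊆ Q then 1 else 0

/-- The data of a state. -/
structure Dat (f : Fin (k + 1) → α → β) (E : Finset α) (p : ℕ → ℝ) (d : ℝ) (T L : ℕ)
    (lam u s η : ℝ) (cl : α → Fin L) (op : α → ℕ) (μ : Finset α → ℝ) : Prop where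
  lev : ∀ e, op e ≤ k
  pos : ∀ Q, 0 ≤ μ Q
  tot : 1 ≤ ∑ Q, μ Q
  sup : ∀ Q, μ Q ≠ 0 → Ok f E T L Q ∧ vec f (fun e => op e + 1) Q = 0
  pt : ∀ Q, μ Q ≤ exp (-(lam * cost p op Q + u * Q.card + s))
  spr : ∀ c F, (∀ e ∈ F, cl e = c) → up μ F ≤ exp (η - d * F.card)

/-- A state. -/
def St (f : Fin (k + 1) → α → β) (E : Finset α) (p : ℕ → ℝ) (d : ℝ) (T L : ℕ)
    (lam u s η : ℝ) : Prop :=
  ∃ cl op μ, Dat f E p d T L lam u s η cl op μ

/-- All losses at scale `L` are at most `exp σ`. -/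
structure Env (f : Fin (k + 1) → α → β) (E : Finset α) (p : ℕ → ℝ) (T L : ℕ) (σ : ℝ) : Prop where
  sun : ∃ M, SunH α (k + 1) (L * T) M ∧
    (((k + 1) * (M + 1) : ℕ) : ℝ) ^ (k + 1) * ((k + 1 : ℕ) : ℝ) ^ ((k + 1) * (L * T)) ≤ exp σ
  z : ∀ Y, Y.card ≤ (k + 1) * (L * (k + 1) * T) → ∑ ω, pw f E p Y ω ≤ exp σ
  kr : ∀ (op : α → ℕ) (Y : Finset (Fin (k + 1) × β)) (F : Finset (Finset α)),
    Y.card ≤ (k + 1) * (L * (k + 1) * T) →
    (∀ S ∈ F, Ok f E T L S ∧ ∀ x ∉ Y, vec f (fun e => op e + 1) S x = 0) →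
    ∑ S ∈ F, exp (-cost p op S) ≤ exp σ
  two : 2 * 2 ^ (L * T) ≤ exp σ
  four : 4 * (L : ℝ) ≤ exp σ

/-- The conditions on the prices. -/
structure Prof (k : ℕ) (p : ℕ → ℝ) (d : ℝ) : Prop where
  pos : ∀ t, 0 ≤ p t
  two : ∀ j, 1 ≤ j → j < k → kap p (j + 1) ≤ k * kap p j
  three : k * p 1 ≤ d
  four : ∀ j < k, kap p (j + 1) ≤ k * p (j + 1)

theorem kap_nonneg {p : ℕ → ℝ} (hp : ∀ t, 0 ≤ p t) (j : ℕ) : 0 ≤ kap p j :=
  sum_nonneg fun _ _ => hp _

omit [Fintype α] [DecidableEq α] in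
theorem cost_nonneg {p : ℕ → ℝ} (hp : ∀ t, 0 ≤ p t) (op : α → ℕ) (S : Finset α) :
    0 ≤ cost p op S :=
  sum_nonneg fun _ _ => kap_nonneg hp _

omit [Fintype α] [DecidableEq α] in
theorem cost_le {p : ℕ → ℝ} (hp : ∀ t, 0 ≤ p t) {op : α → ℕ} (h : ∀ e, op e ≤ k) (S : Finset α) :
    cost p op S ≤ kap p k * S.card := by
  rw [mul_comm, ← nsmul_eq_mul]
  exact sum_le_card_nsmul _ _ _ fun e _ =>
    sum_le_sum_of_subset_of_nonneg (range_mono (h e)) fun _ _ _ => hp _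

theorem kap_Ico (p : ℕ → ℝ) {a b : ℕ} (h : a ≤ b) :
    ∑ t ∈ Ico (a + 1) (b + 1), p t = kap p b - kap p a := by
  rw [← sum_Ico_add', sum_Ico_eq_sub _ h, kap, kap]

omit [Fintype β] in
theorem mkSt {f : Fin (k + 1) → α → β} {E : Finset α} {p : ℕ → ℝ} {d : ℝ} {T L : ℕ}
    {lam u s η τ : ℝ} {cl : α → Fin L} {op : α → ℕ} {μ : Finset α → ℝ} (lev : ∀ e, op e ≤ k)
    (spr : ∀ c F, (∀ e ∈ F, cl e = c) → up μ F ≤ exp (η - d * F.card)) (χ : α → Fin (k + 1))
    (ν : Finset α → Finset α → ℝ) (h0 : ∀ U S, 0 ≤ ν U S) (h1 : 1 ≤ exp τ * ∑ U, ∑ S, ν U S)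
    (h2 : ∀ U S, ν U S ≠ 0 → Ok f E T (L * (k + 1)) U ∧ vec f (fun e => op e + 1) U = 0)
    (h3 : ∀ U, ∑ S, ν U S ≤ exp (-(lam * cost p op U + u * U.card + s)))
    (h4 : ∀ i F, ∑ U, ∑ S, ν U S * (if F ⊆ tup χ U S i then 1 else 0) ≤ up μ F) :
    St f E p d T (L * (k + 1)) lam u (s - τ) (η + τ) := by
  refine ⟨fun e => finProdFinEquiv (cl e, χ e), op, fun U => exp τ * ∑ S, ν U S, lev,
    fun U => mul_nonneg (exp_nonneg _) (sum_nonneg fun S _ => h0 U S), by rwa [← mul_sum],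
    fun U h => ?_, fun U => ?_, fun c F h => ?_⟩
  · obtain ⟨S, -, a⟩ := exists_ne_zero_of_sum_ne_zero (right_ne_zero_of_mul h)
    exact h2 U S a
  · refine (mul_le_mul_of_nonneg_left (h3 U) (exp_nonneg _)).trans_eq ?_
    rw [← exp_add]
    ring_nf
  · obtain ⟨⟨c, i⟩, rfl⟩ := finProdFinEquiv.surjective c
    have a : ∀ e ∈ F, cl e = c ∧ χ e = i := fun e he => Prod.ext_iff.1 (finProdFinEquiv.injective (h e he))
    have b := mul_le_mul_of_nonneg_left ((h4 i F).trans (spr c F fun e he => (a e he).1))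
      (exp_nonneg τ)
    rw [← exp_add, mul_sum] at b
    refine le_trans (sum_le_sum fun U _ => ?_) (b.trans_eq (by ring_nf))
    rw [mul_assoc, sum_mul]
    refine mul_le_mul_of_nonneg_left (sum_le_sum fun S _ =>
      mul_le_mul_of_nonneg_left ?_ (h0 U S)) (exp_nonneg _)
    by_cases g : F ⊆ U
    · rw [if_pos g, if_pos (show F ⊆ tup χ U S i from
        fun e he => mem_union_right _ (mem_filter.2 ⟨g he, (a e he).2⟩))]
    · rw [if_neg g]
      split_ifs <;> norm_num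

/-- The output of the first gluing of a round. `B` is the set of level one edges that close. -/
structure Rd (f : Fin (k + 1) → α → β) (E : Finset α) (p : ℕ → ℝ) (T L : ℕ) (lam u s σ : ℝ)
    (cl : α → Fin L) (op op' : α → ℕ) (μ : Finset α → ℝ) (B : Finset α) (χ : α → Fin (k + 1))
    (ν : Finset α → Finset α → ℝ) (K : Finset α → Finset α → Fin L → Finset α)
    (Y : Finset α → Finset (Fin (k + 1) × β)) : Prop where
  lev : ∀ e, op' e ≤ k
  pos : ∀ U S, 0 ≤ ν U S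
  tot : 1 ≤ exp (2 * σ) * ∑ U, ∑ S, ν U S
  sup : ∀ U S, ν U S ≠ 0 → Ok f E T (L * (k + 1)) U ∧ vec f (fun e => op' e + 1) U = 0
  pt : ∀ U S, ν U S ≤ exp (2 * k * σ - (lam * cost p op' U + u * U.card + (k + 1) * s) -
    (k * cost p op' S + (k + 1) * u * S.card))
  mar : ∀ i F, ∑ U, ∑ S, ν U S * (if F ⊆ tup χ U S i then 1 else 0) ≤ up μ F
  edge : ∀ X, cost p op X ≤ k * cost p op' X + p 1 * (B ∩ X).card
  y : ∀ U, (Y U).card ≤ (k + 1) * (L * (k + 1) * T)
  sub : ∀ U S c, K U S c ⊆ S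
  dis : ∀ U S c c', c ≠ c' → Disjoint (K U S c) (K U S c')
  ok : ∀ U S, ν U S ≠ 0 → Ok f E T L S
  cl1 : ∀ U S, ν U S ≠ 0 → ∀ c, ∀ x ∉ Y U, vec f (fun e => op e + 1) (K U S c) x = 0
  cl0 : ∀ U S, ν U S ≠ 0 → ∀ x ∉ Y U,
    vec f (fun e => op e + 1) (S \ univ.biUnion (K U S)) x = 0
  cls : ∀ U S, ν U S ≠ 0 → ∀ c, ∀ e ∈ B ∩ K U S c, cl e = c
  few : ∀ U S, ν U S ≠ 0 → p 1 * (B ∩ (S \ univ.biUnion (K U S))).card ≤
    (k + 1) * u * (S \ univ.biUnion (K U S)).card

theorem round (hk : 1 ≤ k) {f : Fin (k + 1) → α → β} {E : Finset α} {p : ℕ → ℝ} {d : ℝ} {T L : ℕ}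
    {lam u s η σ θ : ℝ} {cl : α → Fin L} {op : α → ℕ} {μ : Finset α → ℝ} (hE : Env f E p T L σ)
    (hp : Prof k p d) (h : Dat f E p d T L lam u s η cl op μ) {ρ : ℕ} (hu : 0 ≤ u)
    (hl : (k : ℝ) / (k + 1) ≤ lam) (hρ : p 1 ≤ (k + 1) * u * (ρ + 1)) (θ0 : 0 ≤ θ) (θ1 : θ * k ≤ 1)
    (θ2 : θ * (k + 1) ^ (4 * ρ) ≤ 1) : ∃ op' B χ ν K Y,
    Rd f E p T L (lam + θ * (lam - k / (k + 1))) u s σ cl op op' μ B χ ν K Y := by
  classical
  have hg : ∀ Q, ∃ A ⊆ Q.filter (fun e => op e = 1), ∃ K : Finset α → Fin L → Finset α,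
      (∀ S c, K S c ⊆ S) ∧ (∀ S c c', c ≠ c' → Disjoint (K S c) (K S c')) ∧ (μ Q ≠ 0 →
      (Q.filter fun e => op e = 1).card ≤ A.card * (k + 1) ^ (4 * ρ) ∧ ∀ S,
        (∀ c x, (∀ e ∈ Q \ S, f x.1 e ≠ x.2) → S ⊆ Q → vec f (fun e => op e + 1) (K S c) x = 0) ∧
        (∀ c, ∀ e ∈ A, e ∈ K S c → cl e = c) ∧
        (ρ + 1) * (A ∩ (S \ univ.biUnion (K S))).card ≤ (S \ univ.biUnion (K S)).card) :=
    fun Q => by
      by_cases a : μ Q = 0
      · exact ⟨∅, empty_subset _, fun _ _ => ∅, fun _ _ => empty_subset _,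
          fun _ _ _ _ => disjoint_empty_left _, fun b => absurd a b⟩
      · obtain ⟨A, a1, a2, K, a3⟩ := geom f _ cl ρ Q (Q.filter fun e => op e = 1) (h.sup Q a).2
        exact ⟨A, a1, K, fun S => (a3 S).1, fun S => (a3 S).2.1, fun _ => ⟨a2, fun S => (a3 S).2.2⟩⟩
  choose A A1 K K1 K2 K3 using hg
  obtain ⟨ψ, hψ⟩ := fixc μ h.pos id (fun Q e => decide (e ∈ A Q)) (L * T)
    fun Q a => (h.sup Q a).1.2.1
  let B : Finset α := univ.filter fun e => op e = 1 ∧ ψ e = true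
  let w : Finset α → ℝ := fun Q => if ∀ e ∈ Q, ψ e = decide (e ∈ A Q) then μ Q else 0
  have w0 : ∀ Q, 0 ≤ w Q ∧ w Q ≤ μ Q := fun Q => by
    simp only [w]
    split_ifs
    · exact ⟨h.pos Q, le_rfl⟩
    · exact ⟨le_rfl, h.pos Q⟩
  have w1 : ∀ Q, w Q ≠ 0 → μ Q ≠ 0 ∧ B ∩ Q = A Q := fun Q a => by
    have b : ∀ e ∈ Q, ψ e = decide (e ∈ A Q) := by
      by_contra b
      exact a (if_neg b)
    refine ⟨by simpa only [w, if_pos b] using a, Finset.ext fun e => ⟨fun c => ?_, fun c => ?_⟩⟩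
    · exact of_decide_eq_true ((b e (mem_inter.1 c).2).symm.trans
        (mem_filter.1 (mem_inter.1 c).1).2.2)
    · obtain ⟨c1, c2⟩ := mem_filter.1 (A1 Q c)
      exact mem_inter.2 ⟨mem_filter.2 ⟨mem_univ _, c2, (b e c1).trans (decide_eq_true c)⟩, c1⟩
  let op' : α → ℕ := fun e => if op e = 1 ∧ e ∉ B then 1 else op e - 1
  have k1 : (1 : ℝ) ≤ k := by exact_mod_cast hk
  have o1 : ∀ e, op' e ≤ op e ∧
      kap p (op e) ≤ k * kap p (op' e) + p 1 * (if e ∈ B then 1 else 0) ∧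
      θ * kap p (op e) + p 1 * (if e ∈ B then 1 else 0) ≤
        kap p (op e) - kap p (op' e) + θ * p 1 * (if op e = 1 then 1 else 0) := fun e => by
    have p1 := hp.pos 1
    by_cases a : op e = 1
    · by_cases b : e ∈ B
      · simp [op', a, b, kap, add_comm]
      · simp only [op', a, b, kap]
        simp
        nlinarith
    · have b : e ∉ B := fun b => a (mem_filter.1 b).2.1
      simp only [op', a, b, false_and, if_false, mul_zero, add_zero]
      rcases c : op e with _ | j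
      · simp [kap]
      · have c1 := h.lev e
        refine ⟨Nat.sub_le _ _, hp.two j (by omega) (by omega), ?_⟩
        have c2 : kap p (j + 1) = kap p j + p (j + 1) := sum_range_succ _ _
        have c3 := mul_le_mul_of_nonneg_left (hp.four j (by omega)) θ0
        have c4 := mul_le_mul_of_nonneg_right θ1 (hp.pos (j + 1))
        rw [Nat.add_sub_cancel]
        linarith
  have o2 : ∀ X : Finset α, ∑ e ∈ X, (if e ∈ B then (1 : ℝ) else 0) = (B ∩ X).card := fun X => by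
    rw [sum_boole, filter_mem_eq_inter, inter_comm]
  have o3 : ∀ Q, w Q ≠ 0 → θ * cost p op Q ≤ cost p op Q - cost p op' Q := fun Q a => by
    have b := sum_le_sum fun e (_ : e ∈ Q) => (o1 e).2.2
    simp only [sum_add_distrib, sum_sub_distrib, ← mul_sum] at b
    rw [o2, (w1 Q a).2, sum_boole] at b
    have c : ((Q.filter fun e => op e = 1).card : ℝ) ≤ (A Q).card * (k + 1) ^ (4 * ρ) := by
      exact_mod_cast (K3 Q (w1 Q a).1).1
    have c1 := mul_le_mul_of_nonneg_left c (mul_nonneg θ0 (hp.pos 1))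
    have c2 := mul_le_mul_of_nonneg_left θ2 (mul_nonneg (hp.pos 1) (Nat.cast_nonneg (A Q).card))
    unfold cost
    linarith
  obtain ⟨M, m1, m2⟩ := hE.sun
  obtain ⟨χ, ν, n0, n1, n2, n3, n4⟩ := glue (Y := Unit) hk m1 (fun _ => 1) (fun _ => w)
    (vec f fun e => op' e + 1) (fun _ => pw f E p ∅) (exp_pos σ) m2 (fun _ => zero_le_one)
    (fun _ Q => (w0 Q).1) (fun _ Q a => (h.sup Q (w1 Q a).1).1.2.1) (fun _ => pw_nonneg _ _ _ _)
    (fun _ => hE.z ∅ (Nat.zero_le _)) (by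
      simp only [univ_unique, sum_singleton, mul_one]
      have a := mul_le_mul_of_nonneg_right hE.two (sum_nonneg fun Q (_ : Q ∈ univ) => (w0 Q).1)
      have b := h.tot.trans hψ
      rw [Fintype.card_bool, Nat.cast_ofNat] at b
      change 1 ≤ 2 ^ (L * T) * ∑ Q, w Q at b
      linarith)
  let Y : Finset α → Finset (Fin (k + 1) × β) := fun U => if U.card ≤ L * (k + 1) * T then
    (univ ×ˢ U).image fun x => (x.1, f x.1 x.2) else ∅
  have s1 : ∀ U S, ν () U S ≠ 0 → Ok f E T (L * (k + 1)) U := fun U S a =>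
    ok_tup (n2 _ U S a).1 fun i => (h.sup _ (w1 _ ((n2 _ U S a).2.1 i)).1).1
  have s2 : ∀ U S, S ⊆ tup χ U S 0 := fun U S => subset_union_left
  have s3 : ∀ U S, ν () U S ≠ 0 → ∀ x ∉ Y U, ∀ e ∈ tup χ U S 0 \ S, f x.1 e ≠ x.2 :=
    fun U S a x hx e he c => hx (by
      simp only [Y, if_pos (s1 U S a).2.1]
      exact mem_image.2 ⟨(x.1, e), mem_product.2 ⟨mem_univ _, (mem_filter.1 ((mem_union.1
        (mem_sdiff.1 he).1).resolve_left (mem_sdiff.1 he).2)).1⟩, Prod.ext rfl c⟩)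
  have s4 : ∀ U S, ν () U S ≠ 0 → ∀ c, ∀ x ∉ Y U,
      vec f (fun e => op e + 1) (K (tup χ U S 0) S c) x = 0 := fun U S a c x hx =>
    ((K3 _ (w1 _ ((n2 _ U S a).2.1 0)).1).2 S).1 c x (s3 U S a x hx) (s2 U S)
  have s5 : ∀ U S, ν () U S ≠ 0 → ∀ X ⊆ S, B ∩ X = A (tup χ U S 0) ∩ X := fun U S a X b => by
    rw [← (w1 _ ((n2 _ U S a).2.1 0)).2, inter_assoc, inter_eq_right.2 (b.trans (s2 U S))]
  refine ⟨op', B, χ, ν (), fun U S => K (tup χ U S 0) S, Y, fun e => (o1 e).1.trans (h.lev e),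
    n0 (), ?_, fun U S a => ⟨s1 U S a, vec_tup (n2 _ U S a).1 (n2 _ U S a).2.2⟩, fun U S => ?_,
    fun i F => (n4 () i (fun Q => if F ⊆ Q then 1 else 0) fun Q => by
      split_ifs <;> norm_num).trans (sum_le_sum fun Q _ =>
      mul_le_mul_of_nonneg_right (w0 Q).2 (by split_ifs <;> norm_num)), fun X => ?_, fun U => ?_,
    fun U S => K1 _ S, fun U S => K2 _ S,
    fun U S a => (h.sup _ (w1 _ ((n2 _ U S a).2.1 0)).1).1.mono (s2 U S) le_rfl, s4,
    fun U S a x hx => ?_, fun U S a c e he => ?_, fun U S a => ?_⟩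
  · simpa only [univ_unique, sum_singleton, ← exp_nat_mul, Nat.cast_ofNat] using n1
  · by_cases a : ν () U S = 0
    · exact a ▸ exp_nonneg _
    obtain ⟨a1, a2, a3⟩ := n2 _ U S a
    obtain ⟨i, -, hi⟩ := exists_min_image univ
      (fun i => cost p op (tup χ U S i) - cost p op' (tup χ U S i)) univ_nonempty
    have b1 := card_nsmul_le_sum _ _ _ hi
    have b2 := pw_ge f (h.sup _ (w1 _ (a2 i)).1).1.1 hp.pos ∅ (a := fun e => op' e + 1)
      (fun e => Nat.succ_le_succ (o1 e).1) fun x _ => congrFun (h.sup _ (w1 _ (a2 i)).1).2 x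
    rw [a3 i, sum_congr rfl fun e _ => kap_Ico p (o1 e).1, sum_sub_distrib] at b2
    have b3 := (mul_le_mul_of_nonneg_left (pow_le_pow_left₀ (exp_nonneg _)
      (b2.trans_eq (one_mul _).symm) k) (n0 () U S)).trans ((n3 () U S).trans
        (mul_le_mul_of_nonneg_left (prod_le_prod (fun i _ => (w0 _).1)
          fun i _ => (w0 _).2.trans (h.pt _)) (by positivity)))
    rw [← exp_sum, ← exp_nat_mul, ← exp_nat_mul, ← exp_add, ← le_div_iff₀ (exp_pos _),
      ← exp_sub] at b3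
    refine b3.trans (exp_le_exp.2 ?_)
    have c1 := sum_tup χ a1 fun e => kap p (op' e)
    have c2 := sum_tup χ a1 fun _ => (1 : ℝ)
    have c3 := sum_le_sum fun i (_ : i ∈ univ) => o3 _ (a2 i)
    simp only [sum_const, nsmul_eq_mul, mul_one, sum_neg_distrib, sum_add_distrib, ← mul_sum,
      sum_sub_distrib, card_univ, Fintype.card_fin, cost] at b1 c1 c2 c3 ⊢
    have c4 := cost_nonneg hp.pos op' S
    have c5 : ∑ i, cost p op' (tup χ U S i) ≤ ∑ i, cost p op (tup χ U S i) :=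
      sum_le_sum fun i _ => sum_le_sum fun e _ =>
        sum_le_sum_of_subset_of_nonneg (range_mono (o1 e).1) fun _ _ _ => hp.pos _
    unfold cost at c4 c5
    obtain ⟨g, rfl⟩ : ∃ g, lam = k / (k + 1) + g := ⟨lam - k / (k + 1), by ring⟩
    have g0 : 0 ≤ g := by linarith
    obtain ⟨l, hl'⟩ : ∃ l : ℝ, l = k / (k + 1) := ⟨_, rfl⟩
    have l1 : l * (k + 1) = k := by rw [hl']; field_simp
    have l0 : 0 ≤ l := by rw [hl']; positivity
    rw [← hl', c2]
    push_cast at b1 c1 ⊢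
    generalize ∑ i, ∑ e ∈ tup χ U S i, kap p (op e) = C at *
    generalize ∑ i, ∑ e ∈ tup χ U S i, kap p (op' e) = C' at *
    generalize ∑ e ∈ S, kap p (op' e) = cS at *
    generalize ∑ e ∈ U, kap p (op' e) = cU at *
    generalize ∑ e ∈ tup χ U S i, kap p (op e) - ∑ e ∈ tup χ U S i, kap p (op' e) = a at *
    have d1 := mul_le_mul_of_nonneg_left b1 l0
    rw [← mul_assoc, l1] at d1
    have d2 := mul_le_mul_of_nonneg_left c3 g0
    have d3 := mul_le_mul_of_nonneg_left c5 (mul_nonneg g0 θ0)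
    have d4 : 0 ≤ (g + θ * g) * ((k + 1) * cS) := by positivity
    have d5 : l * ((k + 1) * cS) = k * cS := by rw [← mul_assoc, l1]
    subst c1
    linarith
  · have b := sum_le_sum fun e (_ : e ∈ X) => (o1 e).2.1
    rwa [sum_add_distrib, ← mul_sum, ← mul_sum, o2] at b
  · simp only [Y]
    split_ifs with a
    · refine card_image_le.trans ?_
      rw [card_product, card_univ, Fintype.card_fin]
      exact Nat.mul_le_mul_left _ a
    · exact Nat.zero_le _
  · have b := congrFun (h.sup _ (w1 _ ((n2 _ U S a).2.1 0)).1).2 x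
    have c := fun c => s4 U S a c x hx
    unfold vec at b c ⊢
    rw [← sum_sdiff (s2 U S), sum_eq_zero fun e he => if_neg fun g => s3 U S a x hx e he g.2,
      zero_add, ← sum_sdiff (biUnion_subset.2 fun c (_ : c ∈ univ) => K1 (tup χ U S 0) S c),
      sum_biUnion fun c _ c' _ g => K2 _ S c c' g, sum_eq_zero fun j _ => c j, add_zero] at b
    exact b
  · rw [s5 U S a _ (K1 _ S c)] at he
    exact ((K3 _ (w1 _ ((n2 _ U S a).2.1 0)).1).2 S).2.1 c e (mem_inter.1 he).1 (mem_inter.1 he).2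
  · rw [s5 U S a _ sdiff_subset]
    have b := Nat.cast_le (α := ℝ).2 ((K3 _ (w1 _ ((n2 _ U S a).2.1 0)).1).2 S).2.2
    push_cast at b
    refine (mul_le_mul_of_nonneg_right hρ (Nat.cast_nonneg _)).trans ?_
    rw [mul_assoc]
    exact mul_le_mul_of_nonneg_left b (by positivity)

end Pool.Agent.Work.MP_78fef3_co.Y
end

-- merged part: Pool.Agent.Work.MP_78fef3_co.Y.Step
section
/-! The two cases of a round. -/

namespace Pool.Agent.Work.MP_78fef3_co.Y

open Finset Real Pool.Agent.Work.MP_78fef3_co.S Pool.Agent.Work.MP_78fef3_co.R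

variable {α β : Type} [Fintype α] [DecidableEq α] [Fintype β] [DecidableEq β] {k : ℕ}
  {f : Fin (k + 1) → α → β} {E : Finset α} {p : ℕ → ℝ} {d : ℝ} {T L : ℕ} {lam u s η σ err : ℝ}
  {cl : α → Fin L} {op op' : α → ℕ} {μ : Finset α → ℝ} {B : Finset α} {χ : α → Fin (k + 1)}
  {ν : Finset α → Finset α → ℝ} {K : Finset α → Finset α → Fin L → Finset α}
  {Y : Finset α → Finset (Fin (k + 1) × β)}

/-- The price at which a closed part of a kernel can be summed. -/
def zz (k : ℕ) (p : ℕ → ℝ) (op : α → ℕ) (u : ℝ) (X : Finset α) : ℝ :=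
  ∑ e ∈ X, (k * kap p (op e) + (k + 1) * u)

omit [Fintype α] [DecidableEq α] in
theorem zz_eq (X : Finset α) : zz k p op u X = k * cost p op X + (k + 1) * u * X.card := by
  rw [zz, sum_add_distrib, ← mul_sum, sum_const, nsmul_eq_mul, mul_comm (X.card : ℝ), cost]

/-- The mass of the kernels whose part of class `c` is `X`. -/
noncomputable def nk (ν : Finset α → Finset α → ℝ) (K : Finset α → Finset α → Fin L → Finset α)
    (U : Finset α) (c : Fin L) (X : Finset α) : ℝ :=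
  ∑ S, if K U S c = X then ν U S else 0

/-- `X` is heavy. -/
def Hv (z : Finset α → ℝ) (ν : Finset α → Finset α → ℝ)
    (K : Finset α → Finset α → Fin L → Finset α) (U : Finset α) (c : Fin L) (X : Finset α) : Prop :=
  exp (-z X) * ∑ S, ν U S < nk ν K U c X

theorem nk_sum (U : Finset α) (c : Fin L) (h : Finset α → ℝ) :
    ∑ X, nk ν K U c X * h X = ∑ S, ν U S * h (K U S c) := by
  simp only [nk, sum_mul]
  rw [sum_comm]
  exact sum_congr rfl fun S _ => by simp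

open Classical in
theorem case1 (hE : Env f E p T L σ) (lev : ∀ c F, (∀ e ∈ F, cl e = c) → up μ F ≤ exp (η - d * F.card))
    (h : Rd f E p T L lam u s σ cl op op' μ B χ ν K Y)
    (hc : ∑ U, ∑ S, ν U S ≤ 2 * ∑ U, ∑ S,
      if ∀ c, Hv (fun X => err + zz k p op' u X) ν K U c (K U S c) then ν U S else 0) :
    St f E p d T (L * (k + 1)) lam u ((k + 1) * s - L * err - (2 * k + 1) * σ - 4 * σ)
      (η + 4 * σ) := by
  obtain ⟨z, hz⟩ : ∃ z, z = fun X => err + zz k p op' u X := ⟨_, rfl⟩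
  rw [← hz] at hc
  have n0 : ∀ U S, 0 ≤ (if ∀ c, Hv z ν K U c (K U S c) then ν U S else 0) ∧
      (if ∀ c, Hv z ν K U c (K U S c) then ν U S else 0) ≤ ν U S := fun U S => by
    split_ifs
    · exact ⟨h.pos U S, le_rfl⟩
    · exact ⟨le_rfl, h.pos U S⟩
  refine mkSt h.lev lev χ (fun U S => if ∀ c, Hv z ν K U c (K U S c) then ν U S else 0)
    (fun U S => (n0 U S).1) ?_ (fun U S a => h.sup U S fun b => a (by simp [b])) (fun U => ?_)
    fun i F => le_trans (sum_le_sum fun U _ => sum_le_sum fun S _ => mul_le_mul_of_nonneg_right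
      (n0 U S).2 (by split_ifs <;> norm_num)) (h.mar i F)
  · have a : (2 : ℝ) ≤ exp σ := le_trans (le_mul_of_one_le_right two_pos.le
      (one_le_pow₀ one_le_two)) hE.two
    have b : exp (4 * σ) = exp (2 * σ) * (exp σ * exp σ) := by
      rw [← exp_add, ← exp_add]
      ring_nf
    rw [b, mul_assoc]
    refine h.tot.trans (mul_le_mul_of_nonneg_left (hc.trans (mul_le_mul_of_nonneg_right
      (by nlinarith) (sum_nonneg fun U _ => sum_nonneg fun S _ => (n0 U S).1))) (exp_nonneg _))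
  have a1 : ∀ c, ∑ X with Hv z ν K U c X, exp (-z X) ≤ 1 := fun c => by
    rcases (sum_nonneg fun S (_ : S ∈ univ) => h.pos U S).eq_or_lt with a | a
    · refine le_trans (le_of_eq (sum_eq_zero fun X hX => absurd (mem_filter.1 hX).2 ?_)) zero_le_one
      rw [Hv, ← a, mul_zero, not_lt]
      refine le_trans (sum_le_sum fun S _ => ?_) a.ge
      split_ifs
      · exact le_rfl
      · exact h.pos U S
    · refine le_of_mul_le_mul_right ?_ a
      have b := nk_sum (ν := ν) (K := K) U c fun _ => 1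
      simp only [mul_one] at b
      rw [sum_mul, one_mul]
      refine (sum_le_sum fun X hX => (mem_filter.1 hX).2.le).trans (le_trans
        (sum_le_sum_of_subset_of_nonneg (subset_univ _) fun X _ _ => sum_nonneg fun S _ => ?_) b.le)
      split_ifs
      · exact h.pos U S
      · exact le_rfl
  let F := univ.filter fun S => ν U S ≠ 0 ∧ ∀ c, Hv z ν K U c (K U S c)
  let F0 := univ.filter fun X => Ok f E T L X ∧ ∀ x ∉ Y U, vec f (fun e => op e + 1) X x = 0
  let g : Finset α × (Fin L → Finset α) → ℝ := fun x => exp (-cost p op x.1) * ∏ c, exp (-z (x.2 c))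
  let j : Finset α → Finset α × (Fin L → Finset α) := fun S => (S \ univ.biUnion (K U S), K U S)
  have a2 : ∑ S ∈ F, g (j S) ≤ exp σ := by
    rw [← sum_image (f := g) fun S _ S' _ e => by
      obtain ⟨e1, e2⟩ := Prod.ext_iff.1 e
      rw [← sdiff_union_of_subset (biUnion_subset.2 fun c (_ : c ∈ univ) => h.sub U S c),
        ← sdiff_union_of_subset (biUnion_subset.2 fun c (_ : c ∈ univ) => h.sub U S' c)]
      exact congrArg₂ _ e1 (congrArg _ e2)]
    refine (sum_le_sum_of_subset_of_nonneg (t := F0 ×ˢ Fintype.piFinset fun c =>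
      univ.filter (Hv z ν K U c)) (fun x hx => ?_) fun x _ _ => by positivity).trans ?_
    · obtain ⟨S, a, rfl⟩ := mem_image.1 hx
      obtain ⟨-, b, c⟩ := mem_filter.1 a
      exact mem_product.2 ⟨mem_filter.2 ⟨mem_univ _, (h.ok U S b).mono sdiff_subset le_rfl,
        h.cl0 U S b⟩, Fintype.mem_piFinset.2 fun i => mem_filter.2 ⟨mem_univ _, c i⟩⟩
    · rw [sum_product]
      simp only [g]
      rw [← sum_mul_sum, ← prod_univ_sum _ fun _ X => exp (-z X)]
      exact (mul_le_mul (hE.kr op (Y U) F0 (h.y U) fun S a => (mem_filter.1 a).2)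
        (prod_le_one (fun c _ => by positivity) fun c _ => a1 c) (by positivity)
        (exp_nonneg _)).trans_eq (mul_one _)
  have a3 : ∀ S ∈ F, ν U S ≤ exp (2 * k * σ - (lam * cost p op' U + u * U.card + (k + 1) * s) +
      L * err) * g (j S) := fun S a => by
    obtain ⟨-, b, -⟩ := mem_filter.1 a
    refine (h.pt U S).trans ?_
    simp only [g, j]
    rw [← exp_sum, ← exp_add, ← exp_add, exp_le_exp, ← zz_eq]
    have c1 : zz k p op' u S = zz k p op' u (S \ univ.biUnion (K U S)) +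
        ∑ c, zz k p op' u (K U S c) := by
      unfold zz
      rw [← sum_biUnion fun c _ c' _ g => h.dis U S c c' g,
        sum_sdiff (biUnion_subset.2 fun c _ => h.sub U S c)]
    have c2 := h.edge (S \ univ.biUnion (K U S))
    have c3 := h.few U S b
    rw [c1, zz_eq (S \ _), hz]
    simp only [sum_neg_distrib, sum_add_distrib, sum_const, card_univ, Fintype.card_fin,
      nsmul_eq_mul]
    linarith
  have a4 : ∑ S, (if ∀ c, Hv z ν K U c (K U S c) then ν U S else 0) = ∑ S ∈ F, ν U S := by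
    rw [sum_filter]
    refine sum_congr rfl fun S _ => ?_
    by_cases a : ν U S = 0 <;> simp [a]
  rw [a4]
  refine (sum_le_sum a3).trans ?_
  rw [← mul_sum]
  refine (mul_le_mul_of_nonneg_left a2 (exp_nonneg _)).trans_eq ?_
  rw [← exp_add]
  ring_nf

open Classical in
theorem case2 (hk : 1 ≤ k) (hE : Env f E p T L σ) (hp : Prof k p d) (hu : 0 ≤ u)
    (lev0 : ∀ e, op e ≤ k) (lev : ∀ c F, (∀ e ∈ F, cl e = c) → up μ F ≤ exp (η - d * F.card))
    (h : Rd f E p T L lam u s σ cl op op' μ B χ ν K Y) (c : Fin L)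
    (hc : ∑ U, ∑ S, ν U S ≤ 2 * L * ∑ U, ∑ S,
      if Hv (fun X => err + zz k p op' u X) ν K U c (K U S c) then 0 else ν U S) :
    St f E p d T (L * (k + 1)) (k / (k + 1)) (k * u) (k * err - η - 2 * k * σ - 4 * σ)
      (η + 4 * σ) := by
  obtain ⟨z, hz⟩ : ∃ z, z = fun X => err + zz k p op' u X := ⟨_, rfl⟩
  rw [← hz] at hc
  let w : Finset α → Finset α → ℝ := fun U X => nk ν K U c X * if Hv z ν K U c X then 0 else 1
  have k0 : ∀ U X, 0 ≤ nk ν K U c X := fun U X => sum_nonneg fun S _ => by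
    split_ifs
    · exact h.pos U S
    · exact le_rfl
  have w0 : ∀ U X, 0 ≤ w U X := fun U X => mul_nonneg (k0 U X) (by split_ifs <;> norm_num)
  have N0 : ∀ U, 0 ≤ ∑ S, ν U S := fun U => sum_nonneg fun S _ => h.pos U S
  have w1 : ∀ U X, w U X ≠ 0 → Ok f E T L X ∧ (∀ x ∉ Y U, vec f (fun e => op e + 1) X x = 0) ∧
      ∀ e ∈ B ∩ X, cl e = c := fun U X a => by
    obtain ⟨S, -, b⟩ := exists_ne_zero_of_sum_ne_zero (left_ne_zero_of_mul a)
    obtain ⟨rfl, b1⟩ := ite_ne_right_iff.1 b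
    exact ⟨(h.ok U S b1).mono (h.sub U S c) le_rfl, h.cl1 U S b1 c, h.cls U S b1 c⟩
  have w2 : ∀ U X, w U X ≤ exp (-z X) * ∑ S, ν U S := fun U X => by
    simp only [w]
    split_ifs with a
    · rw [mul_zero]
      exact mul_nonneg (exp_nonneg _) (N0 U)
    · rw [mul_one]
      exact not_lt.1 a
  have w3 : ∀ F, ∑ U, ∑ X, w U X * (if F ⊆ X then 1 else 0) ≤ up μ F := fun F => by
    refine le_trans (sum_le_sum fun U _ => ?_) (h.mar 0 F)
    simp only [w, mul_assoc]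
    rw [nk_sum U c fun X => (if Hv z ν K U c X then 0 else 1) * if F ⊆ X then 1 else 0]
    refine sum_le_sum fun S _ => mul_le_mul_of_nonneg_left ?_ (h.pos U S)
    by_cases a : F ⊆ K U S c
    · rw [if_pos a, if_pos (show F ⊆ tup χ U S 0 from
        (a.trans (h.sub U S c)).trans subset_union_left)]
      split_ifs <;> norm_num
    · rw [if_neg a]
      split_ifs <;> norm_num
  obtain ⟨M, m1, m2⟩ := hE.sun
  obtain ⟨χ', ν', n0, n1, n2, n3, n4⟩ := glue hk m1 (fun U => ∑ S, ν U S) w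
    (vec f fun e => op e + 1) (fun U => pw f E p (Y U)) (exp_pos σ) m2 N0 w0
    (fun U X a => (w1 U X a).1.2.1) (fun _ => pw_nonneg _ _ _ _) (fun U => hE.z _ (h.y U)) (by
      have a : ∑ U, ∑ X, w U X =
          ∑ U, ∑ S, if Hv z ν K U c (K U S c) then 0 else ν U S := sum_congr rfl fun U _ => by
        rw [nk_sum U c fun X => if Hv z ν K U c X then 0 else 1]
        exact sum_congr rfl fun S _ => by split_ifs <;> simp
      have b := mul_le_mul_of_nonneg_right hE.four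
        (sum_nonneg fun U (_ : U ∈ univ) => sum_nonneg fun X (_ : X ∈ univ) => w0 U X)
      rw [← a] at hc
      linarith)
  refine mkSt lev0 lev χ' (fun U S => ∑ y, ν' y U S) (fun U S => sum_nonneg fun y _ => n0 y U S) ?_
    (fun U S a => ?_) (fun U => ?_) fun i F => ?_
  · have a : ∑ y, ∑ U, ∑ S, ν' y U S = ∑ U, ∑ S, ∑ y, ν' y U S := by
      rw [sum_comm]
      exact sum_congr rfl fun U _ => sum_comm
    rw [a, ← exp_nat_mul, Nat.cast_ofNat] at n1
    refine h.tot.trans ((mul_le_mul_of_nonneg_left n1 (exp_nonneg _)).trans_eq ?_)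
    rw [← mul_assoc, ← exp_add]
    ring_nf
  · obtain ⟨y, -, b⟩ := exists_ne_zero_of_sum_ne_zero a
    exact ⟨ok_tup (n2 y U S b).1 fun i => (w1 _ _ ((n2 y U S b).2.1 i)).1,
      vec_tup (n2 y U S b).1 (n2 y U S b).2.2⟩
  · by_cases a0 : ∑ S, ∑ y, ν' y U S = 0
    · exact a0 ▸ exp_nonneg _
    obtain ⟨S0, -, a0⟩ := exists_ne_zero_of_sum_ne_zero a0
    obtain ⟨y0, -, a0⟩ := exists_ne_zero_of_sum_ne_zero a0
    let P : Fin (k + 1) → Finset α := fun i => U.filter fun e => χ' e = i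
    have P1 : ∀ S i, P i ⊆ tup χ' U S i := fun S i => subset_union_right
    obtain ⟨i, -, hi⟩ := exists_max_image univ (fun i => d * (B ∩ P i).card - z (P i)) univ_nonempty
    have a1 : ∀ y S, ν' y U S ≤ exp (2 * k * σ - ∑ j : Fin k, z (P (i.succAbove j))) *
        if Disjoint S U then w y (tup χ' U S i) else 0 := fun y S => by
      by_cases a : ν' y U S = 0
      · rw [a]
        refine mul_nonneg (exp_nonneg _) ?_
        split_ifs
        · exact w0 _ _
        · exact le_rfl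
      obtain ⟨b1, b2, -⟩ := n2 y U S a
      have b3 := pw_ge f (w1 _ _ (b2 0)).1.1 hp.pos (Y y) (fun _ => le_rfl) (w1 _ _ (b2 0)).2.1
      simp only [Ico_self, sum_empty, sum_const_zero, neg_zero, exp_zero] at b3
      have b4 : 0 < ∑ S, ν y S := (mul_pos_iff_of_pos_left (exp_pos _)).1
        ((lt_of_le_of_ne (w0 _ _) (b2 0).symm).trans_le (w2 y _))
      have b5 := (mul_le_mul_of_nonneg_left (pow_le_pow_left₀ b4.le
        (le_mul_of_one_le_right b4.le b3) k) (n0 y U S)).trans (n3 y U S)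
      rw [Fin.prod_univ_succAbove _ i] at b5
      have b6 : ∏ j : Fin k, w y (tup χ' U S (i.succAbove j)) ≤
          exp (-∑ j : Fin k, z (P (i.succAbove j))) * (∑ S, ν y S) ^ k := by
        rw [← sum_neg_distrib, exp_sum, show (∑ S, ν y S) ^ k = ∏ _j : Fin k, ∑ S, ν y S by simp,
          ← prod_mul_distrib]
        refine prod_le_prod (fun j _ => w0 _ _) fun j _ => (w2 _ _).trans
          (mul_le_mul_of_nonneg_right (exp_le_exp.2 (neg_le_neg ?_)) b4.le)
        rw [hz]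
        exact add_le_add le_rfl (sum_le_sum_of_subset_of_nonneg (P1 S _) fun e _ _ => add_nonneg
          (mul_nonneg (Nat.cast_nonneg _) (kap_nonneg hp.pos _)) (by positivity))
      rw [if_pos b1]
      refine le_of_mul_le_mul_right (b5.trans ((mul_le_mul_of_nonneg_left
        (mul_le_mul_of_nonneg_left b6 (w0 _ _)) (by positivity)).trans_eq ?_)) (pow_pos b4 k)
      rw [← exp_nat_mul, sub_eq_add_neg, exp_add]
      push_cast
      ring
    have a2 : ∀ y, ∑ S, (if Disjoint S U then w y (tup χ' U S i) else 0) ≤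
        ∑ X, w y X * if B ∩ P i ⊆ X then 1 else 0 := fun y => by
      rw [← sum_filter, ← sum_image (f := w y) (g := fun S => tup χ' U S i) fun S a S' a' e => by
        have b : ∀ S, Disjoint S U → tup χ' U S i \ P i = S := fun S b =>
          union_sdiff_cancel_right (b.mono_right (filter_subset _ _))
        rw [← b S (mem_filter.1 a).2, ← b S' (mem_filter.1 a').2]
        exact congrArg (· \ P i) e]
      simp only [mul_ite, mul_one, mul_zero]
      rw [← sum_filter]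
      refine sum_le_sum_of_subset_of_nonneg (fun X a => ?_) fun X _ _ => w0 _ _
      obtain ⟨S, -, rfl⟩ := mem_image.1 a
      exact mem_filter.2 ⟨mem_univ _, inter_subset_right.trans (P1 S i)⟩
    have a3 := ((sum_le_sum fun y _ => a2 y).trans (w3 _)).trans (lev c (B ∩ P i) fun e he =>
      (w1 _ _ ((n2 y0 U S0 a0).2.1 i)).2.2 e (inter_subset_inter_left (P1 S0 i) he))
    rw [sum_comm]
    refine (sum_le_sum fun y _ => sum_le_sum fun S _ => a1 y S).trans ?_
    simp only [← mul_sum]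
    refine (mul_le_mul_of_nonneg_left a3 (exp_nonneg _)).trans ?_
    rw [← exp_add, exp_le_exp]
    have b1 := sum_le_card_nsmul _ _ _ hi
    have b2 := Fin.sum_univ_succAbove (fun j => z (P j)) i
    have b3 : ∑ j, z (P j) = (k + 1) * err + zz k p op' u U := by
      rw [hz]
      simp only [zz, P]
      rw [sum_add_distrib, sum_fiberwise]
      simp
    have b4 : ∑ j, ((B ∩ P j).card : ℝ) = (B ∩ U).card := by
      rw [card_eq_sum_card_fiberwise (s := B ∩ U) (t := univ) (f := χ') fun _ _ => mem_univ _]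
      push_cast
      exact sum_congr rfl fun j _ => by rw [inter_filter]
    rw [sum_sub_distrib, ← mul_sum, b4, card_univ, Fintype.card_fin, nsmul_eq_mul] at b1
    have b5 := mul_le_mul_of_nonneg_left (h.edge U) (Nat.cast_nonneg (α := ℝ) k)
    have b6 := mul_le_mul_of_nonneg_right hp.three (Nat.cast_nonneg (α := ℝ) (B ∩ U).card)
    rw [zz_eq] at b3
    refine le_of_mul_le_mul_left ?_ (show (0 : ℝ) < k + 1 by positivity)
    have b7 : ((k : ℝ) + 1) * (k / (k + 1) * cost p op U) = k * cost p op U := by field_simp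
    have b8 : ∑ j : Fin k, z (P (i.succAbove j)) = ∑ j, z (P j) - z (P i) := by linarith
    rw [b8]
    rw [b3] at b1 ⊢
    push_cast at b1
    linarith
  · refine le_trans (le_of_eq ?_) ((sum_le_sum fun y _ => n4 y i (fun X => if F ⊆ X then 1 else 0)
      fun X => by split_ifs <;> norm_num).trans (w3 F))
    simp only [sum_mul]
    rw [sum_comm (s := univ) (t := univ) (f := fun y U => ∑ S, ν' y U S *
      if F ⊆ tup χ' U S i then 1 else 0)]
    exact sum_congr rfl fun U _ => sum_comm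

theorem step (hk : 1 ≤ k) (hE : Env f E p T L σ) (hp : Prof k p d) (hL : 1 ≤ L)
    (h : St f E p d T L lam u s η) {ρ : ℕ} {θ : ℝ} (hu : 0 ≤ u)
    (hl : (k : ℝ) / (k + 1) ≤ lam) (hρ : p 1 ≤ (k + 1) * u * (ρ + 1)) (θ0 : 0 ≤ θ) (θ1 : θ * k ≤ 1)
    (θ2 : θ * (k + 1) ^ (4 * ρ) ≤ 1) (err : ℝ) :
    St f E p d T (L * (k + 1)) (lam + θ * (lam - k / (k + 1))) u
      ((k + 1) * s - L * err - (2 * k + 1) * σ - 4 * σ) (η + 4 * σ) ∨
    St f E p d T (L * (k + 1)) (k / (k + 1)) (k * u) (k * err - η - 2 * k * σ - 4 * σ)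
      (η + 4 * σ) := by
  classical
  obtain ⟨cl, op, μ, h⟩ := h
  obtain ⟨op', B, χ, ν, K, Y, hR⟩ := round hk hE hp h hu hl hρ θ0 θ1 θ2
  refine (le_or_gt _ _).imp (case1 hE h.spr hR) fun a => ?_
  have : Nonempty (Fin L) := ⟨⟨0, hL⟩⟩
  obtain ⟨c, -, hc⟩ := exists_max_image univ (fun c => ∑ U, ∑ S,
    if Hv (fun X => err + zz k p op' u X) ν K U c (K U S c) then 0 else ν U S) univ_nonempty
  refine case2 hk hE hp hu h.lev h.spr hR c ?_
  have b1 := sum_le_card_nsmul _ _ _ hc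
  rw [card_univ, Fintype.card_fin, nsmul_eq_mul, sum_comm] at b1
  have b2 : ∑ U, ∑ S, ν U S ≤ (∑ U, ∑ S,
      if ∀ c, Hv (fun X => err + zz k p op' u X) ν K U c (K U S c) then ν U S else 0) +
      ∑ U, ∑ c, ∑ S, if Hv (fun X => err + zz k p op' u X) ν K U c (K U S c) then 0 else ν U S := by
    rw [← sum_add_distrib]
    refine sum_le_sum fun U _ => ?_
    rw [sum_comm, ← sum_add_distrib]
    refine sum_le_sum fun S _ => ?_
    have g : ∀ c, 0 ≤ if Hv (fun X => err + zz k p op' u X) ν K U c (K U S c) then 0 else ν U S :=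
      fun c => by
        split_ifs
        · exact le_rfl
        · exact hR.pos U S
    split_ifs with g1
    · exact le_add_of_nonneg_right (sum_nonneg fun c _ => g c)
    · obtain ⟨c, g2⟩ := not_forall.1 g1
      rw [zero_add]
      exact (if_neg g2).symm.trans_le (single_le_sum (fun c _ => g c) (mem_univ c))
  linarith

end Pool.Agent.Work.MP_78fef3_co.Y
end

-- merged part: Pool.Agent.Work.MP_78fef3_co.Y.Hyp
section
/-! The hypergraph statement at the first moment threshold. -/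

namespace Pool.Agent.Work.MP_78fef3_co.Y

open Finset Real Pool.Agent.Work.MP_78fef3_co.S Pool.Agent.Work.MP_78fef3_co.R

section
variable {α β : Type} [Fintype α] [DecidableEq α] [Fintype β] [DecidableEq β] {k : ℕ}
  {f : Fin (k + 1) → α → β} {E : Finset α} {p : ℕ → ℝ} {d : ℝ} {T L : ℕ} {lam u s η σ : ℝ}

omit [Fintype β] in
theorem St.imp (h : St f E p d T L lam u s η) (hp : ∀ t, 0 ≤ p t) {lam' u' s' η' : ℝ}
    (H : ∀ c n : ℝ, 0 ≤ c → 0 ≤ n → c ≤ kap p k * n → lam' * c + u' * n ≤ lam * c + u * n)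
    (hs : s' ≤ s) (hη : η ≤ η') : St f E p d T L lam' u' s' η' := by
  obtain ⟨cl, op, μ, h⟩ := h
  exact ⟨cl, op, μ, h.lev, h.pos, h.tot, h.sup, fun Q => (h.pt Q).trans (exp_le_exp.2 (neg_le_neg
    (add_le_add (H _ _ (cost_nonneg hp _ _) (Nat.cast_nonneg _) (cost_le hp h.lev _)) hs))),
    fun c F a => (h.spr c F a).trans (exp_le_exp.2 (sub_le_sub_right hη _))⟩

theorem final (hE : Env f E p T L σ) (hs : σ < s) : ¬ St f E p d T L 1 0 s η := by
  classical
  rintro ⟨cl, op, μ, h⟩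
  have a := hE.kr op ∅ (univ.filter fun Q => μ Q ≠ 0) (Nat.zero_le _) fun Q hQ =>
    ⟨(h.sup Q (mem_filter.1 hQ).2).1, fun x _ => congrFun (h.sup Q (mem_filter.1 hQ).2).2 x⟩
  have b := h.tot
  rw [← sum_filter_ne_zero] at b
  have c := b.trans (sum_le_sum fun Q _ => h.pt Q)
  simp only [one_mul, zero_mul, add_zero, neg_add, exp_add, ← sum_mul] at c
  have e := c.trans (mul_le_mul_of_nonneg_right a (exp_nonneg _))
  rw [← exp_add, one_le_exp_iff] at e
  linarith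

theorem iter (hk : 3 ≤ k) (hp : Prof k p d) {Lm J ρ : ℕ} {θ g0 u0 S η1 : ℝ}
    (hE : ∀ L, 1 ≤ L → L ≤ Lm → Env f E p T L σ) (σ0 : 0 ≤ σ) (η0 : 0 < η1)
    (hS : η1 + (2 * k + 5) * σ ≤ S) (g1 : 0 ≤ g0) (hg : g0 * kap p k ≤ u0) (u1 : 0 ≤ u0)
    (hρ : p 1 ≤ (k + 1) * u0 * (ρ + 1)) (θ0 : 0 ≤ θ) (θ1 : θ * k ≤ 1)
    (θ2 : θ * (k + 1) ^ (4 * ρ) ≤ 1) (hJ : 1 ≤ (k + 1) * (g0 * (1 + θ) ^ J)) (i j : ℕ) :
    ∀ (L : ℕ) (g u η : ℝ), 1 ≤ L → L * (k + 1) ^ (i * (J + 1) + j) ≤ Lm → 0 ≤ g →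
      1 ≤ (k + 1) * (g * (1 + θ) ^ j) → u0 ≤ u → kap p k ≤ (k + 1) * u * 2 ^ i →
      η + (i * (J + 1) + j : ℕ) * (4 * σ) ≤ η1 →
      ¬ St f E p d T L (k / (k + 1) + g) u (S * Lm ^ i) η := by
  have k3 : (3 : ℝ) ≤ k := by exact_mod_cast hk
  obtain ⟨l, hl⟩ : ∃ l : ℝ, l = k / (k + 1) := ⟨_, rfl⟩
  have l1 : (k + 1) * l = k := by rw [hl]; field_simp
  have a0 : ∀ L n, L * (k + 1) ^ n ≤ Lm → L ≤ Lm := fun L n a =>
    (Nat.le_mul_of_pos_right _ (by positivity)).trans a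
  have S0 : 0 ≤ S := by nlinarith
  have a1 : ∀ L n i, 1 ≤ L → L * (k + 1) ^ n ≤ Lm → S ≤ S * Lm ^ i := fun L n i a b =>
    le_mul_of_one_le_right S0 (one_le_pow₀ (Nat.one_le_cast.2 (a.trans (a0 L n b))))
  have S1 : σ < S := by nlinarith
  induction i generalizing j with
  | zero =>
    intro L g u η h1 h2 h3 _ h5 h6 _ h
    refine final (hE L h1 (a0 _ _ h2)) (S1.trans_le (a1 L _ 0 h1 h2))
      (h.imp hp.pos (fun c n c0 n0 cn => ?_) le_rfl le_rfl)
    rw [← hl]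
    refine le_of_mul_le_mul_left ?_ (show (0 : ℝ) < k + 1 by positivity)
    have b := mul_le_mul_of_nonneg_right h6 n0
    have e : 0 ≤ (k + 1) * (g * c) := by positivity
    have e1 : (k + 1) * (l * c) = k * c := by rw [← mul_assoc, l1]
    linarith
  | succ i ih =>
    induction j with
    | zero =>
      intro L g u η h1 h2 _ h4 h5 _ _ h
      refine final (hE L h1 (a0 _ _ h2)) (S1.trans_le (a1 L _ (i + 1) h1 h2))
        (h.imp hp.pos (fun c n c0 n0 _ => ?_) le_rfl le_rfl)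
      rw [← hl]
      refine le_of_mul_le_mul_left ?_ (show (0 : ℝ) < k + 1 by positivity)
      have b := mul_le_mul_of_nonneg_right h4 c0
      have e : 0 ≤ (k + 1) * (u * n) := mul_nonneg (by positivity) (mul_nonneg (u1.trans h5) n0)
      have e1 : (k + 1) * (l * c) = k * c := by rw [← mul_assoc, l1]
      linarith
    | succ j ih' =>
      intro L g u η h1 h2 h3 h4 h5 h6 h7 h
      have b0 := a1 L _ i h1 h2
      have b1 := a1 L _ (i + 1) h1 h2
      have b2 : 1 ≤ L * (k + 1) := Nat.mul_pos h1 k.succ_pos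
      have b3 : η ≤ η1 := le_trans (le_add_of_nonneg_right (by positivity)) h7
      rcases step (by omega) (hE L h1 (a0 _ _ h2)) hp h1 h (u1.trans h5) (le_add_of_nonneg_right h3)
        (hρ.trans (by gcongr)) θ0 θ1 θ2 (S * Lm ^ i) with c | c
      · refine ih' _ (g * (1 + θ)) u (η + 4 * σ) b2 (le_trans (le_of_eq (by ring)) h2)
          (by positivity) (h4.trans_eq (by ring)) h5 h6 (le_trans (le_of_eq (by push_cast; ring)) h7)
          (c.imp hp.pos (fun c n _ _ _ => le_of_eq (by ring)) ?_ le_rfl)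
        have e := mul_le_mul_of_nonneg_right (Nat.cast_le (α := ℝ).2 (a0 _ _ h2)) (S0.trans b0)
        have e1 := mul_le_mul_of_nonneg_right k3 (S0.trans b1)
        rw [pow_succ] at *
        linarith
      · refine ih J _ g0 (2 * u) (η + 4 * σ) b2 (le_trans ?_ h2) g1 hJ (by linarith)
          (h6.trans_eq (by ring)) (le_trans ?_ h7)
          (c.imp hp.pos (fun c n c0 n0 cn => ?_) ?_ le_rfl)
        · rw [mul_assoc, ← pow_succ']
          exact Nat.mul_le_mul_left _ (Nat.pow_le_pow_right k.succ_pos (by nlinarith))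
        · push_cast
          nlinarith [mul_nonneg (Nat.cast_nonneg (α := ℝ) j) σ0]
        · have e := mul_le_mul_of_nonneg_left cn g1
          have e1 := mul_le_mul_of_nonneg_right (hg.trans h5) n0
          have e2 := mul_le_mul_of_nonneg_right k3 (mul_nonneg (u1.trans h5) n0)
          linarith
        · have e1 := mul_le_mul_of_nonneg_right k3 (S0.trans b0)
          linarith

omit [Fintype β] in
theorem start {Δ : ℕ} (hT : 1 ≤ T) (hd : ∀ t v, deg (f t) E v ≤ Δ)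
    (h1 : 2 * ((k + 1) * ((T - 1) * Δ)) ≤ E.card) (h2 : exp d * T ≤ E.card)
    (h3 : lam * kap p k + u + s ≤ d - 1) : St f E p d T 1 lam u (s * T) T := by
  classical
  have T0 : (0 : ℝ) < T := by exact_mod_cast hT
  have E0 : (0 : ℝ) < E.card := lt_of_lt_of_le (by positivity) h2
  have a1 := Mt_count f E Δ ((E.card + 1) / 2) hd T fun j hj => by
    have := Nat.mul_le_mul_left (k + 1) (Nat.mul_le_mul_right Δ (show j ≤ T - 1 by omega))
    omega
  have a2 : E.card ^ T ≤ 2 ^ T * ((Mt f E T).card * T.factorial) :=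
    (Nat.pow_le_pow_left (by omega) T).trans ((mul_pow _ _ _).trans_le (Nat.mul_le_mul_left _ a1))
  have a3 : (0 : ℝ) < (Mt f E T).card := Nat.cast_pos.2 (Nat.pos_of_mul_pos_right
    (Nat.pos_of_mul_pos_left ((Nat.pow_pos (Nat.cast_pos.1 E0)).trans_le a2)))
  let μ : Finset α → ℝ := fun Q => if Q ∈ Mt f E T then ((Mt f E T).card : ℝ)⁻¹ else 0
  have m0 : ∀ Q, 0 ≤ μ Q := fun Q => by
    simp only [μ]
    split_ifs <;> positivity
  have m1 : ∀ F, up μ F ≤ exp (T - d * F.card) := fun F => by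
    have b1 : up μ F = ((Mt f E T).filter (F ⊆ ·)).card * ((Mt f E T).card : ℝ)⁻¹ := by
      simp only [up, μ, mul_ite, mul_one, mul_zero]
      rw [← sum_filter, sum_ite_mem, sum_const, nsmul_eq_mul]
      congr 3
      ext Q
      simp [and_comm]
    rw [b1]
    rcases ((Mt f E T).filter (F ⊆ ·)).eq_empty_or_nonempty with b | ⟨Q, b⟩
    · rw [b, card_empty, Nat.cast_zero, zero_mul]
      exact exp_nonneg _
    have b2 : F.card ≤ T := (mem_Mt.1 (mem_filter.1 b).1).1.2 ▸ card_le_card (mem_filter.1 b).2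
    have b3 : ((Mt f E T).filter (F ⊆ ·)).card ≤ E.card.choose (T - F.card) := by
      rw [← card_powersetCard]
      refine card_le_card_of_injOn (· \ F) (fun Q c => ?_) fun Q c Q' c' e => ?_
      · obtain ⟨c1, c2⟩ := mem_filter.1 c
        exact mem_powersetCard.2 ⟨sdiff_subset.trans (mem_Mt.1 c1).1.1,
          by rw [card_sdiff_of_subset c2, (mem_Mt.1 c1).1.2]⟩
      · rw [← sdiff_union_of_subset (mem_filter.1 c).2, ← sdiff_union_of_subset (mem_filter.1 c').2]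
        exact congrArg (· ∪ F) e
    have b4 : ((Mt f E T).filter (F ⊆ ·)).card * T.factorial ≤
        E.card ^ (T - F.card) * T ^ F.card := by
      rw [← Nat.factorial_mul_descFactorial b2, ← mul_assoc]
      refine Nat.mul_le_mul ((Nat.mul_le_mul_right _ b3).trans ?_) (Nat.descFactorial_le_pow _ _)
      rw [mul_comm, ← Nat.descFactorial_eq_factorial_mul_choose]
      exact Nat.descFactorial_le_pow _ _
    have b5 : ((Mt f E T).filter (F ⊆ ·)).card * E.card ^ F.card ≤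
        2 ^ T * (Mt f E T).card * T ^ F.card := by
      refine Nat.le_of_mul_le_mul_left ?_ (Nat.pow_pos (n := T - F.card) (Nat.cast_pos.1 E0))
      rw [mul_left_comm, ← pow_add, Nat.sub_add_cancel b2]
      refine (Nat.mul_le_mul_left _ a2).trans (le_trans (le_of_eq ?_)
        ((Nat.mul_le_mul_left (2 ^ T * (Mt f E T).card) b4).trans_eq ?_)) <;> ring
    have b6 : (((Mt f E T).filter (F ⊆ ·)).card : ℝ) * (exp d * T) ^ F.card ≤
        exp 1 ^ T * (Mt f E T).card * T ^ F.card := by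
      refine (mul_le_mul_of_nonneg_left (pow_le_pow_left₀ (by positivity) h2 _)
        (Nat.cast_nonneg _)).trans (le_trans (by exact_mod_cast b5 :
          _ ≤ (2 : ℝ) ^ T * (Mt f E T).card * T ^ F.card) ?_)
      gcongr
      linarith [add_one_le_exp 1]
    rw [mul_pow, ← mul_assoc] at b6
    have b7 := le_of_mul_le_mul_right b6 (by positivity)
    rw [← div_eq_mul_inv, div_le_iff₀ a3, exp_sub, div_mul_eq_mul_div, le_div_iff₀ (exp_pos _),
      mul_comm d, exp_nat_mul, ← mul_one (T : ℝ), exp_nat_mul]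
    exact b7
  refine ⟨fun _ => 0, fun _ => k, μ, fun _ => le_rfl, m0, ?_, fun Q a => ?_, fun Q => ?_,
    fun _ F _ => m1 F⟩
  · simp only [μ]
    rw [sum_ite_mem, univ_inter, sum_const, nsmul_eq_mul, mul_inv_cancel₀ a3.ne']
  · obtain ⟨⟨b1, b2⟩, b3⟩ := mem_Mt.1 (ite_ne_right_iff.1 a).1
    refine ⟨⟨b1, by omega, fun t v => card_le_one.2 fun x hx y hy => b3 t (mem_filter.1 hx).1
      (mem_filter.1 hy).1 ((mem_filter.1 hx).2.trans (mem_filter.1 hy).2.symm)⟩,
      funext fun x => sum_eq_zero fun e _ => if_neg fun c => x.1.2.not_ge c.1⟩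
  · by_cases a : μ Q = 0
    · exact a ▸ exp_nonneg _
    have b := (mem_Mt.1 (ite_ne_right_iff.1 a).1).1.2
    refine le_trans (le_trans (le_of_eq (by simp)) (single_le_sum (f := fun X => μ X *
      if Q ⊆ X then 1 else 0) (fun X _ => mul_nonneg (m0 X) (by split_ifs <;> norm_num))
      (mem_univ Q))) ((m1 Q).trans (exp_le_exp.2 ?_))
    have c := mul_le_mul_of_nonneg_right h3 T0.le
    simp only [cost, sum_const, nsmul_eq_mul, b]
    linarith

theorem env (hk : 1 ≤ k) (hp : ∀ t, 0 ≤ p t) {Λ : ℕ} {B : ℝ} (hT : 1 ≤ T) (hL : 1 ≤ L)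
    (hΛ : Fintype.card α < 2 ^ Λ) (h1 : 1 ≤ Λ)
    (hN : ∀ t, ((E.image (f t)).card : ℝ) ≤ T * exp (p t)) (hF : FA f E (L * (k + 1)))
    (hB : ((384 * (k + 1) ^ 5 * Λ ^ 3 : ℕ) : ℝ) ^ (k + 1) * exp (p 0 + 2 * (k + 1) ^ 3) ≤ exp B)
    (hσ : (L * T : ℕ) * B ≤ σ) : Env f E p T L σ := by
  obtain ⟨m, hm⟩ : ∃ m, m = L * T := ⟨_, rfl⟩
  have m1 : 1 ≤ m := hm ▸ Nat.mul_pos hL hT
  have m2 : (T : ℝ) ≤ m := Nat.cast_le.2 (hm ▸ Nat.le_mul_of_pos_left _ hL)
  have m3 : (L : ℝ) ≤ m := Nat.cast_le.2 (hm ▸ Nat.le_mul_of_pos_right _ hT)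
  have m4 : (1 : ℝ) ≤ m := by exact_mod_cast m1
  obtain ⟨R, hR⟩ : ∃ R, R = 128 * ((k + 1) * Λ) ^ 3 := ⟨_, rfl⟩
  have R0 : 0 < R := by rw [hR]; positivity
  have hM := sunH (α := α) k m Λ hΛ h1
  rw [← hR] at hM
  obtain ⟨Γ, hΓ⟩ : ∃ Γ, Γ = ((k + 1) * ((m + 1) * R ^ m + 1)) ^ (k + 1) * (k + 1) ^ ((k + 1) * m) :=
    ⟨_, rfl⟩
  have a1 : Γ ≤ ((384 * (k + 1) ^ 5 * Λ ^ 3) ^ (k + 1)) ^ m := by
    have b1 : m + 2 ≤ 3 ^ m := by
      have := one_add_mul_le_pow (a := (2 : ℤ)) (by norm_num) m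
      norm_num at this
      have c : 1 + m * 2 ≤ 3 ^ m := by exact_mod_cast this
      omega
    have b2 : (k + 1) * ((m + 1) * R ^ m + 1) ≤ ((k + 1) * (3 * R)) ^ m := by
      rw [mul_pow, mul_pow]
      refine Nat.mul_le_mul (Nat.le_self_pow (by omega) _) (le_trans ?_ (Nat.mul_le_mul_right _ b1))
      have := Nat.pow_pos (n := m) R0
      nlinarith
    rw [hΓ]
    refine (Nat.mul_le_mul_right _ (Nat.pow_le_pow_left b2 _)).trans_eq ?_
    rw [← pow_mul, mul_comm m, ← mul_pow, ← pow_mul, hR]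
    congr 1
    ring
  have a2 : (m + 1) * R ^ m ≤ Γ := by
    rw [hΓ]
    refine le_trans ?_ (Nat.le_mul_of_pos_right _ (by positivity))
    exact (Nat.le_succ _).trans ((Nat.le_mul_of_pos_left _ k.succ_pos).trans
      (Nat.le_self_pow k.succ_ne_zero _))
  have a3 : (Γ : ℝ) * (exp (p 0 * m) * exp (2 * (k + 1) ^ 3 * m)) ≤ exp σ := by
    have b := pow_le_pow_left₀ (by positivity) hB m
    rw [mul_pow, ← exp_nat_mul, ← exp_nat_mul] at b
    refine le_trans ?_ (b.trans (exp_le_exp.2 (hm ▸ hσ)))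
    rw [← exp_add]
    exact mul_le_mul (by exact_mod_cast a1) (le_of_eq (by ring_nf)) (exp_nonneg _) (by positivity)
  have a4 : (1 : ℝ) ≤ Γ := Nat.one_le_cast.2 (lt_of_lt_of_le (by positivity) a2)
  have a5 : 1 ≤ exp (p 0 * m) := one_le_exp (mul_nonneg (hp 0) (Nat.cast_nonneg _))
  have a6 : exp (2 * (k + 1) ^ 3 * m) ≤ exp σ := le_trans ((le_mul_of_one_le_left (exp_nonneg _)
    a5).trans (le_mul_of_one_le_left (by positivity) a4)) a3
  have a7 : ∀ Y : Finset (Fin (k + 1) × β), Y.card ≤ (k + 1) * (L * (k + 1) * T) →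
      ∑ ω, pw f E p Y ω ≤ exp (2 * (k + 1) ^ 3 * m) := fun Y a => by
    refine (pw_sum f E p T hN Y).trans (exp_le_exp.2 ?_)
    have b : (Y.card : ℝ) ≤ (k + 1) * ((k + 1) * m) := by
      rw [mul_right_comm, ← hm, mul_comm m] at a
      exact_mod_cast a
    have c : ((k : ℝ) + 1) * T ≤ (k + 1) * ((k + 1) * m) :=
      mul_le_mul_of_nonneg_left (m2.trans (le_mul_of_one_le_left (by positivity) (by simp)))
        (by positivity)
    refine (mul_le_mul_of_nonneg_left (add_le_add b c) (by positivity)).trans_eq (by ring)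
  have a8 : exp (4 * m) ≤ exp σ := le_trans (exp_le_exp.2 (mul_le_mul_of_nonneg_right (by
    have b : (1 : ℝ) ≤ k := by exact_mod_cast hk
    nlinarith [pow_le_pow_left₀ (by norm_num : (0 : ℝ) ≤ 2) (by linarith : (2 : ℝ) ≤ k + 1) 3])
    (by positivity))) a6
  refine ⟨⟨_, hm ▸ hM, ?_⟩, fun Y a => (a7 Y a).trans a6, fun op Y F a b => ?_, ?_, ?_⟩
  · rw [← hm]
    refine le_trans (le_trans (le_of_eq ?_) (le_mul_of_one_le_right (Nat.cast_nonneg Γ)
      (one_le_mul_of_one_le_of_one_le a5 (one_le_exp (by positivity))))) a3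
    rw [hΓ, Nat.cast_mul _ ((k + 1) ^ _), Nat.cast_pow, Nat.cast_pow (k + 1)]
  · refine (kraft hk hp hF (hm ▸ hM) op Y F b).trans (le_trans ?_ a3)
    rw [← hm, mul_comm (exp _), mul_assoc]
    exact mul_le_mul (Nat.cast_le.2 a2) (mul_le_mul_of_nonneg_left (a7 Y a) (exp_nonneg _))
      (mul_nonneg (exp_nonneg _) (sum_nonneg fun ω _ => pw_nonneg _ _ _ _ _)) (Nat.cast_nonneg _)
  · rw [← hm, ← pow_succ']
    refine le_trans ?_ a8
    calc (2 : ℝ) ^ (m + 1) ≤ exp 1 ^ (m + 1) :=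
          pow_le_pow_left₀ two_pos.le (by linarith [add_one_le_exp 1]) _
      _ = exp (m + 1) := by rw [← exp_nat_mul, mul_one, Nat.cast_succ]
      _ ≤ _ := exp_le_exp.2 (by linarith)
  · linarith [add_one_le_exp (4 * (m : ℝ))]

end

theorem hypY (k : ℕ) (hk : 3 ≤ k) {x : ℝ} (hx : 0 < x) : ∃ (D : ℕ) (γ : ℝ), 0 < γ ∧
    ∀ (α β : Type) [Fintype α] [DecidableEq α] [Fintype β] [DecidableEq β]
      (f : Fin (k + 1) → α → β) (E : Finset α) (T Δ Λ : ℕ) (p : ℕ → ℝ) (d : ℝ), 1 ≤ T →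
      Fintype.card α < 2 ^ Λ → 1 ≤ Λ → (∀ t v, deg (f t) E v ≤ Δ) →
      2 * ((k + 1) * ((T - 1) * Δ)) ≤ E.card → exp d * T ≤ E.card →
      (∀ t, ((E.image (f t)).card : ℝ) ≤ T * exp (p t)) → Prof k p d →
      k * kap p k ≤ (1 - x) * ((k + 1) * d) →
      ((384 * (k + 1) ^ 5 * Λ ^ 3 : ℕ) : ℝ) ^ (k + 1) * exp (p 0 + 2 * (k + 1) ^ 3) ≤ exp (γ * d) →
      ∃ S ⊆ E, S.Nonempty ∧ ∀ t, ∀ e ∈ S, k < deg (f t) S (f t e) ∧ deg (f t) S (f t e) ≤ D := by
  obtain ⟨n, hn⟩ := exists_nat_ge (2 / x)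
  rw [div_le_iff₀ hx] at hn
  have n1 : 1 ≤ n := Nat.cast_pos.1 ((mul_pos_iff_of_pos_right hx).1 (two_pos.trans_le hn))
  obtain ⟨θ, hθ⟩ : ∃ θ : ℝ, θ = (((k : ℝ) + 1) ^ (4 * n))⁻¹ := ⟨_, rfl⟩
  have θ0 : 0 < θ := by rw [hθ]; positivity
  have θ2 : θ * (k + 1) ^ (4 * n) = 1 := by rw [hθ]; exact inv_mul_cancel₀ (by positivity)
  have θ1 : θ * k ≤ 1 := le_trans (mul_le_mul_of_nonneg_left ((le_add_of_nonneg_right
    zero_le_one).trans (le_self_pow₀ (by simp) (by omega))) θ0.le) θ2.le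
  obtain ⟨J, hJ⟩ := pow_unbounded_of_one_lt (6 / x) (lt_add_of_pos_right 1 θ0)
  rw [div_lt_iff₀ hx] at hJ
  obtain ⟨N, hN⟩ : ∃ N, N = n * (J + 1) + J := ⟨_, rfl⟩
  obtain ⟨Lm, hLm⟩ : ∃ Lm, Lm = (k + 1) ^ N := ⟨_, rfl⟩
  have L1 : (1 : ℝ) ≤ Lm := Nat.one_le_cast.2 (hLm ▸ Nat.pow_pos k.succ_pos)
  obtain ⟨c, hc⟩ : ∃ c : ℝ, c = (4 * N + 2 * k + 6) * Lm * Lm ^ n + 1 := ⟨_, rfl⟩
  have c0 : 0 < c := by rw [hc]; positivity
  refine ⟨Lm * (k + 1), x / (3 * c), by positivity, ?_⟩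
  intro α β _ _ _ _ f E T Δ Λ p d hT hΛ hΛ1 hd h1 h2 h3 hp h4 hB
  obtain ⟨B, hB'⟩ : ∃ B, B = x / (3 * c) * d := ⟨_, rfl⟩
  rw [← hB'] at hB
  have k3 : (3 : ℝ) ≤ k := by exact_mod_cast hk
  have T1 : (1 : ℝ) ≤ T := by exact_mod_cast hT
  have B1 : 1 ≤ B := by
    have a := exp_le_exp.1 ((le_mul_of_one_le_left (exp_nonneg _)
      (one_le_pow₀ (Nat.one_le_cast.2 (Nat.succ_le_of_lt (by positivity))))).trans hB)
    linarith [hp.pos 0, one_le_pow₀ (n := 3) (by linarith : (1 : ℝ) ≤ k + 1)]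
  have B2 : x * d = 3 * (c * B) := by rw [hB']; field_simp
  have d0 : 0 < d := (mul_pos_iff_of_pos_left hx).1 (by rw [B2]; positivity)
  have κ0 := kap_nonneg hp.pos k
  have κ1 : kap p k ≤ 2 * d := by
    have a : 0 ≤ x * ((k + 1) * d) := by positivity
    nlinarith
  by_contra hno
  have hF : FA f E (Lm * (k + 1)) := fun U a1 a2 a3 a4 => hno ⟨U, a1, a2, fun t e he =>
    ⟨Nat.le_of_dvd (card_pos.2 ⟨e, mem_filter.2 ⟨he, rfl⟩⟩) (by
      simpa [deg] using (vec_zero f 0 U (t, f t e)).1 (congrFun a4 _)), a3 t _⟩⟩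
  have g1 : x / 6 * kap p k ≤ x * d / 3 := by nlinarith
  have g2 : 1 ≤ (k + 1) * (x / 6 * (1 + θ) ^ J) :=
    one_le_mul_of_one_le_of_one_le (by linarith) (by linarith)
  refine iter (f := f) (E := E) (T := T) (σ := Lm * T * B) (Lm := Lm) (ρ := n) (g0 := x / 6)
    (u0 := x * d / 3) (S := (4 * N + 2 * k + 6) * (Lm * T * B)) (η1 := (4 * N + 1) * (Lm * T * B))
    hk hp (fun L a b => env (by omega) hp.pos hT a hΛ hΛ1 h3 (fun U a1 a2 a3 => hF U a1 a2
      fun t v => (a3 t v).trans (Nat.mul_le_mul_right _ b)) hB ?_) (by positivity) (by positivity)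
    (le_of_eq (by ring)) (by positivity) g1 (by positivity) ?_ θ0.le θ1 θ2.le g2 n J 1 (x / 6)
    (x * d / 3) T le_rfl (by rw [one_mul, hLm, hN]) (by positivity) g2 le_rfl ?_ ?_
    ((start (s := x * d / 3 - 1) hT hd h1 h2 ?_).imp hp.pos (fun _ _ _ _ _ => le_rfl) ?_ le_rfl)
  · push_cast
    gcongr
  · have a := hp.three
    have b := mul_le_mul_of_nonneg_right k3 (hp.pos 1)
    have e : d ≤ x * d * (n + 1) := by nlinarith
    nlinarith
  · have a : (n : ℝ) ≤ 2 ^ n := by exact_mod_cast Nat.lt_two_pow_self.le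
    have b := mul_le_mul_of_nonneg_right (hn.trans (mul_le_mul_of_nonneg_right a hx.le)) d0.le
    have e : 0 ≤ x * d * 2 ^ n := by positivity
    nlinarith
  · rw [← hN]
    have a : (T : ℝ) ≤ Lm * T * B := (le_mul_of_one_le_left (by positivity) L1).trans
      (le_mul_of_one_le_right (by positivity) B1)
    linarith
  · have a : (k : ℝ) / (k + 1) * kap p k ≤ (1 - x) * d := by
      rw [div_mul_eq_mul_div, div_le_iff₀ (by positivity)]
      linarith
    linarith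
  · rw [B2, hc]
    nlinarith

end Pool.Agent.Work.MP_78fef3_co.Y
end

-- merged part: Pool.Agent.Work.MP_78fef3_co.Y.Core
section
/-! From the hypergraph statement to the exact constant. -/

namespace Pool.Agent.Work.MP_78fef3_co.Y

open Finset Real Pool.Agent.Work.MP_78fef3_co.S Pool.Agent.Work.MP_78fef3_co.R

theorem window (k : ℕ) {z : ℝ} (h0 : 0 < z) (V : Type) (s : Finset V) (x : V → ℕ) (J L : ℕ)
    (hs : s.card = J + 1) (hx : ∀ w ∈ s, 1 ≤ x w ∧ x w ≤ L) (hE : EnoughS z k J L) :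
    ∃ σ : Fin (k + 1) → V, Function.Injective σ ∧ (∀ t, σ t ∈ s) ∧ (∀ t, x (σ t) ≤ x (σ 0)) ∧
      ∀ t : Fin (k + 1), x (σ 0) * exp (-z) ^ (t : ℕ) ≤ x (σ t) := by
  obtain ⟨p, p1, p2, p3⟩ : ∃ p : ℕ → V, (∀ j, p j ∈ s) ∧ (Monotone fun j => x (p j)) ∧
      ∀ i j, i ≤ J → j ≤ J → p i = p j → i = j := by
    obtain ⟨e⟩ : Nonempty (Fin (J + 1) ≃ s) := ⟨(equivFinOfCardEq hs).symm⟩
    refine ⟨fun j => e (Tuple.sort (fun i => x (e i)) ⟨min j J, by omega⟩), fun j => (e _).2,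
      fun i j h => Tuple.monotone_sort (fun i => x (e i)) (min_le_min_right J h), fun i j a b h => ?_⟩
    have := congrArg Fin.val ((Tuple.sort fun i => x (e i)).injective (e.injective (Subtype.ext h)))
    simp only at this
    omega
  obtain ⟨j, a, b⟩ := exists_min_image (range (J + 1)) (fun j => x (p j) * exp (-z) ^ j)
    nonempty_range_add_one
  have a1 : j ≤ J := Nat.lt_succ_iff.1 (mem_range.1 a)
  have a2 : k ≤ j := by
    by_contra c
    have c1 := (b J (self_mem_range_succ J)).trans_lt (mul_lt_mul_of_pos_right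
      ((Nat.cast_le.2 (hx _ (p1 J)).2).trans_lt hE.2) (by positivity))
    have c2 := (le_mul_of_one_le_left (by positivity)
      (Nat.one_le_cast.2 (hx _ (p1 j)).1)).trans_lt c1
    rw [← exp_nat_mul, ← exp_nat_mul, ← exp_add, exp_lt_exp] at c2
    have c3 := mul_lt_mul_of_pos_right (Nat.cast_lt (α := ℝ).2 (not_le.1 c)) h0
    linarith
  refine ⟨fun t => p (j - t), fun t t' e => Fin.ext ?_, fun t => p1 _,
    fun t => p2 (Nat.sub_le_sub_left (Nat.zero_le _) j), fun t => ?_⟩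
  · have := p3 _ _ (by omega) (by omega) e
    omega
  · have c := b (j - t) (mem_range.2 (by omega))
    refine le_of_mul_le_mul_right (le_trans (le_of_eq ?_) c) (by positivity)
    rw [mul_assoc, ← pow_add, Nat.add_sub_cancel' (by omega)]
    rfl

theorem prof {k : ℕ} (hk : 3 ≤ k) {y lam D : ℝ} (y0 : 0 ≤ y) (y1 : y ≤ 1) (l0 : 0 ≤ lam)
    (D0 : 0 ≤ D) (h : (k + 1) * lam ≤ (1 - k * (1 - y)) * D) :
    Prof k (fun t => lam + D * (1 - y ^ t)) (D - lam) := by
  obtain ⟨p, hp⟩ : ∃ p : ℕ → ℝ, p = fun t => lam + D * (1 - y ^ t) := ⟨_, rfl⟩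
  have p0 : ∀ t, 0 ≤ p t := fun t =>
    hp ▸ add_nonneg l0 (mul_nonneg D0 (sub_nonneg.2 (pow_le_one₀ y0 y1)))
  have k3 : (3 : ℝ) ≤ k := by exact_mod_cast hk
  rw [← hp]
  refine ⟨p0, fun j a _ => ?_, ?_, fun j a => ?_⟩
  · obtain ⟨j, rfl⟩ : ∃ i, j = i + 1 := ⟨j - 1, by omega⟩
    have b1 : p (j + 1) ≤ kap p (j + 1) :=
      single_le_sum (f := fun t => p (t + 1)) (fun t _ => p0 _) (self_mem_range_succ j)
    have b2 : p 1 ≤ kap p (j + 1) :=
      single_le_sum (f := fun t => p (t + 1)) (fun t _ => p0 _) (mem_range.2 j.succ_pos)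
    have b3 : p (j + 1 + 1) ≤ p (j + 1) + p 1 := by
      have c := mul_nonneg D0 (mul_nonneg (sub_nonneg.2 (pow_le_one₀ (n := j + 1) y0 y1))
        (sub_nonneg.2 y1))
      simp only [hp, pow_succ y (j + 1), pow_one]
      linarith
    have b4 : kap p (j + 1 + 1) = kap p (j + 1) + p (j + 1 + 1) := sum_range_succ _ _
    have b5 := mul_le_mul_of_nonneg_right k3 (kap_nonneg p0 (j + 1))
    linarith
  · simp only [hp, pow_one]
    linarith
  · refine (sum_le_card_nsmul _ _ (p (j + 1)) fun t b => ?_).trans ?_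
    · simp only [hp]
      have c := pow_le_pow_of_le_one y0 y1 (mem_range.1 b : t + 1 ≤ j + 1)
      gcongr
    · rw [card_range, nsmul_eq_mul]
      exact mul_le_mul_of_nonneg_right (Nat.cast_le.2 a) (p0 _)

theorem first_lt {k : ℕ} (hk : 3 ≤ k) {y : ℝ} (y0 : 0 ≤ y) (y1 : y ≤ 1)
    (h : (k : ℝ) - 1 - 1 / k < ∑ t ∈ range k, y ^ (t + 1)) : k * (1 - y) < 1 := by
  obtain ⟨j, rfl⟩ : ∃ j, k = j + 1 := ⟨k - 1, by omega⟩
  have j2 : (2 : ℝ) ≤ j := by exact_mod_cast Nat.le_of_succ_le_succ hk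
  rw [sum_range_succ'] at h
  have a := sum_le_card_nsmul (range j) (fun t => y ^ (t + 1 + 1)) (y ^ 2) fun t _ =>
    pow_le_pow_of_le_one y0 y1 (by omega)
  rw [card_range, nsmul_eq_mul] at a
  push_cast at h ⊢
  obtain ⟨e, he⟩ : ∃ e : ℝ, e = 1 / (j + 1) := ⟨_, rfl⟩
  have e0 : 0 < e := by rw [he]; positivity
  have e1 : (j + 1) * e = 1 := by rw [he]; field_simp
  rw [← he, pow_one] at h
  by_contra b
  have c : y ≤ 1 - e := by nlinarith
  have c1 := mul_le_mul_of_nonneg_left (pow_le_pow_left₀ y0 c 2) (Nat.cast_nonneg (α := ℝ) j)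
  have c2 : j * e = 1 - e := by linarith
  have c3 : j * (1 - e) ^ 2 = j - 2 * (j * e) + (j * e) * e := by ring
  rw [c3, c2] at c1
  nlinarith

theorem coreY (k : ℕ) (hk : 3 ≤ k) {z : ℝ} (h0 : 0 < z)
    (hz : (k : ℝ) - 1 - 1 / k < ∑ t ∈ range k, exp (-(z * ((t : ℝ) + 1)))) :
    ∃ C0 : ℝ, ∀ C ≥ C0, ∃ g : ℕ, 1 ≤ g ∧ CoreR z k C g := by
  classical
  obtain ⟨y, hy⟩ : ∃ y, y = exp (-z) := ⟨_, rfl⟩
  have y0 : 0 ≤ y := hy ▸ exp_nonneg _
  have y1 : y ≤ 1 := hy ▸ exp_le_one_iff.2 (by linarith)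
  have k3 : (3 : ℝ) ≤ k := by exact_mod_cast hk
  rw [sum_congr rfl (g := fun t => y ^ (t + 1)) fun t _ => by
    rw [hy, ← exp_nat_mul]
    push_cast
    ring_nf] at hz
  have e1 := sub_pos.2 (first_lt hk y0 y1 hz)
  obtain ⟨s1, hs1⟩ : ∃ s, s = ∑ t ∈ range k, y ^ (t + 1) := ⟨_, rfl⟩
  obtain ⟨u, hu⟩ : ∃ u : ℝ, u = (k + 1 - k * (k - s1)) / (2 * (k + 1)) := ⟨_, rfl⟩
  have u0 : 0 < u := by
    have a := mul_lt_mul_of_pos_left hz (show (0 : ℝ) < k by linarith)
    rw [← hs1, mul_sub, mul_one_div_cancel (by linarith)] at a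
    rw [hu]
    exact div_pos (by linarith) (by positivity)
  have u1 : k * (k - s1) = (1 - 2 * u) * (k + 1) := by rw [hu]; field_simp; ring
  obtain ⟨D, γ, γ0, hyp⟩ := hypY k hk u0
  obtain ⟨b, hb⟩ := exists_nat_ge ((k + 1) / (1 - k * (1 - y)) + (k + 1) / u + (1 + γ) / γ)
  have b1 : (k : ℝ) + 1 ≤ b * (1 - k * (1 - y)) := (div_le_iff₀ e1).1
    (le_trans ((le_add_of_nonneg_right (by positivity)).trans
      (le_add_of_nonneg_right (by positivity))) hb)
  have b2 : (k : ℝ) + 1 ≤ b * u := (div_le_iff₀ u0).1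
    (le_trans ((le_add_of_nonneg_left (by positivity)).trans
      (le_add_of_nonneg_right (by positivity))) hb)
  have b3 : 1 + γ ≤ b * γ := (div_le_iff₀ γ0).1 (le_trans (le_add_of_nonneg_left (by positivity)) hb)
  have b0 : (0 : ℝ) < b := (mul_pos_iff_of_pos_right γ0).1 (by linarith)
  obtain ⟨c, hc⟩ : ∃ c, c = 4 * (k + 1) * (k + 1) ^ (k + 1) * (384 * (k + 1) ^ 5) ^ (k + 1) *
    3 ^ (2 * (k + 1) ^ 3) := ⟨_, rfl⟩
  obtain ⟨i0, hi0⟩ := CoreA_poly (c ^ (2 * b)) ((k + 3) * (2 * b))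
  refine ⟨D + 3, fun C hC0 => ⟨(3 * (k + 1) + 1) * (2 * b) + 1 + i0, by omega, ?_⟩⟩
  have hC : (k : ℝ) + 1 < C * k := by nlinarith [Nat.cast_nonneg (α := ℝ) D]
  have hC' : (D : ℝ) < C * k := by nlinarith [Nat.cast_nonneg (α := ℝ) D]
  intro V _ _ G A B N ω J L Q hA hAB hN hω hsum hQ hE hV
  set g := (3 * (k + 1) + 1) * (2 * b) + 1 + i0 with hg
  let x : V → ℕ := fun w => Nat.log 2 (ω w)
  have hx : ∀ w ∈ B, g ≤ x w ∧ x w ≤ L ∧ 2 ^ x w ≤ ω w ∧ ω w < 2 ^ (x w + 1) := by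
    intro w hwB
    obtain ⟨-, h1, h2⟩ := hω w hwB
    have h3 : 2 ^ g ≤ ω w := (Nat.pow_le_pow_left hQ g).trans h1
    refine ⟨Nat.le_log_of_pow_le one_lt_two h3, ?_,
      Nat.pow_log_le_self 2 (((Nat.two_pow_pos g).trans_le h3).ne'),
      Nat.lt_pow_succ_log_self one_lt_two _⟩
    exact (Nat.log_mono_right h2).trans (Nat.log_pow one_lt_two L).le
  have hσ : ∀ a, ∃ σ : Fin (k + 1) → V, a ∈ A → Function.Injective σ ∧ (∀ t, σ t ∈ N a) ∧
      (∀ t, x (σ t) ≤ x (σ 0)) ∧ ∀ t : Fin (k + 1), x (σ 0) * y ^ (t : ℕ) ≤ x (σ t) := by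
    intro a
    by_cases ha : a ∈ A
    · obtain ⟨h1, h2, -⟩ := hN a ha
      obtain ⟨σ, hs⟩ := window k h0 V (N a) x J L h2
        (fun w hwN => ⟨le_trans (by omega) (hx w (h1 hwN)).1, (hx w (h1 hwN)).2.1⟩) hE
      exact ⟨σ, fun _ => hy ▸ hs⟩
    · exact ⟨fun _ => a, fun h1 => absurd h1 ha⟩
  choose σ hσ using hσ
  have hB : ∀ a ∈ A, ∀ t, σ a t ∈ B := fun a ha t => (hN a ha).1 ((hσ a ha).2.1 t)
  obtain ⟨i, hi⟩ := pigeon A hA fun a => x (σ a 0)
  obtain ⟨τ, hτ⟩ := CoreA_fib (A.filter fun a => x (σ a 0) = i)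
    (Fintype.piFinset fun _ : Fin (k + 1) => range (i + 1))
    (Fintype.piFinset_nonempty.2 fun _ => nonempty_range_add_one) (fun a t => x (σ a t))
    fun a ha => Fintype.mem_piFinset.2 fun t => mem_range.2 (Nat.lt_succ_of_le
      (((hσ a (mem_filter.1 ha).1).2.2.1 t).trans (mem_filter.1 ha).2.le))
  rw [Fintype.card_piFinset_const, card_range] at hτ
  obtain ⟨χ, hχ⟩ := colour (k + 1) (Nat.succ_pos k)
    ((A.filter fun a => x (σ a 0) = i).filter fun a => (fun t => x (σ a t)) = τ) σ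
    fun a ha => (hσ a (mem_filter.1 (mem_filter.1 ha).1).1).1
  obtain ⟨E, hEdef⟩ : ∃ E, E = ((A.filter fun a => x (σ a 0) = i).filter
    fun a => (fun t => x (σ a t)) = τ).filter fun a => ∀ t, χ (σ a t) = t := ⟨_, rfl⟩
  rw [← hEdef] at hχ
  have hEm : ∀ a ∈ E, a ∈ A ∧ x (σ a 0) = i ∧ (∀ t, x (σ a t) = τ t) ∧ ∀ t, χ (σ a t) = t := by
    intro a ha
    rw [hEdef, mem_filter, mem_filter, mem_filter] at ha
    exact ⟨ha.1.1.1, ha.1.1.2, congrFun ha.1.2, ha.2⟩
  obtain ⟨R, hR⟩ : ∃ R, R = (i + 1) * (i + 2) * (i + 1) ^ (k + 1) * (k + 1) ^ (k + 1) := ⟨_, rfl⟩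
  have hAE : A.card ≤ R * E.card := by
    refine (hi.trans (Nat.mul_le_mul_left _ (hτ.trans (Nat.mul_le_mul_left _ hχ)))).trans_eq ?_
    rw [hR]
    simp only [mul_assoc]
  have hEne : E.Nonempty := card_pos.1 (Nat.pos_of_mul_pos_left (hA.card_pos.trans_le hAE))
  obtain ⟨a0, ha0⟩ := id hEne
  obtain ⟨m1, m2, m3, -⟩ := hEm a0 ha0
  have hgi : g ≤ i := m2 ▸ (hx _ (hB a0 m1 0)).1
  have hQi : (Q ^ (3 * (k + 1) + 1)) ^ (2 * b) ≤ 2 ^ i := by
    rw [← pow_mul]
    have h1 : Q ^ g < 2 ^ (i + 1) :=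
      (hω _ (hB a0 m1 0)).2.1.trans_lt (m2 ▸ (hx _ (hB a0 m1 0)).2.2.2)
    have h2 : Q ^ ((3 * (k + 1) + 1) * (2 * b) + 1) ≤ Q ^ g :=
      Nat.pow_le_pow_right (by omega) (by omega)
    have h3 := Nat.mul_le_mul_left (Q ^ ((3 * (k + 1) + 1) * (2 * b))) hQ
    rw [pow_succ] at h1 h2
    omega
  have hNt : ∀ t, (E.image fun a => σ a t).card * 2 ^ τ t ≤ Q * R * E.card := by
    intro t
    calc (E.image fun a => σ a t).card * 2 ^ τ t ≤ ∑ w ∈ E.image fun a => σ a t, ω w :=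
          card_nsmul_le_sum _ _ _ fun w hw' => by
            obtain ⟨a, ha, rfl⟩ := mem_image.1 hw'
            exact (hEm a ha).2.2.1 t ▸ (hx _ (hB a (hEm a ha).1 t)).2.2.1
      _ ≤ ∑ w ∈ B, ω w := sum_le_sum_of_subset (image_subset_iff.2 fun a ha => hB a (hEm a ha).1 t)
      _ ≤ Q * (R * E.card) := hsum.trans (Nat.mul_le_mul_left _ hAE)
      _ = _ := (mul_assoc _ _ _).symm
  obtain ⟨W, hW⟩ : ∃ W, W = 4 * (k + 1) * (Q * R) := ⟨_, rfl⟩
  have Q0 : 0 < Q := by omega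
  have QR : 0 < Q * R := by rw [hR]; positivity
  have W0 : (1 : ℝ) ≤ W := Nat.one_le_cast.2 (Nat.succ_le_of_lt (by rw [hW]; positivity))
  obtain ⟨N0, hN0⟩ : ∃ n, n = (384 * (k + 1) ^ 5 * Q ^ 3) ^ (k + 1) * (W * 3 ^ (2 * (k + 1) ^ 3)) :=
    ⟨_, rfl⟩
  have n1 : N0 ^ b ≤ 2 ^ i := by
    have a1 : N0 ≤ c * (i + 2) ^ (k + 3) * Q ^ (3 * (k + 1) + 1) := by
      have a2 : R ≤ (i + 2) * (i + 2) * (i + 2) ^ (k + 1) * (k + 1) ^ (k + 1) := by
        rw [hR]
        gcongr <;> omega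
      rw [hN0, hW, hc]
      refine le_trans (Nat.mul_le_mul_left _ (Nat.mul_le_mul_right _ (Nat.mul_le_mul_left _
        (Nat.mul_le_mul_left _ a2)))) (le_of_eq ?_)
      rw [mul_pow _ (Q ^ 3), ← pow_mul Q, pow_succ Q, show k + 3 = k + 1 + 1 + 1 from rfl,
        pow_succ (i + 2), pow_succ (i + 2)]
      generalize (384 * (k + 1) ^ 5) ^ (k + 1) = a, 3 ^ (2 * (k + 1) ^ 3) = a', (k + 1) ^ (k + 1) = e,
        (i + 2) ^ (k + 1) = e', Q ^ (3 * (k + 1)) = q
      ring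
    have a3 := hi0 i (by omega)
    rw [pow_mul (i + 2), ← mul_pow] at a3
    have a4 := (Nat.pow_le_pow_left a1 (2 * b)).trans
      ((mul_pow _ _ _).trans_le (Nat.mul_le_mul a3 hQi))
    rwa [← sq, mul_comm 2 b, pow_mul, Nat.pow_le_pow_iff_left two_ne_zero] at a4
  have n2 : W ≤ N0 := hN0 ▸ (Nat.le_mul_of_pos_right _ (by positivity)).trans
    (Nat.le_mul_of_pos_left _ (by positivity))
  obtain ⟨D0, hD0⟩ : ∃ D0 : ℝ, D0 = i * log 2 := ⟨_, rfl⟩
  have d1 : exp D0 = 2 ^ i := by rw [hD0, exp_nat_mul, exp_log two_pos]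
  have d0 : 0 ≤ D0 := hD0 ▸ mul_nonneg (Nat.cast_nonneg _) (log_nonneg one_le_two)
  have n3 : (1 : ℝ) ≤ N0 := W0.trans (Nat.cast_le.2 n2)
  have n4 : b * log N0 ≤ D0 := by
    rw [← exp_le_exp, exp_nat_mul, exp_log (by linarith), d1]
    exact_mod_cast n1
  have l0 := log_nonneg W0
  have l1 : log W ≤ log N0 := log_le_log (by linarith) (Nat.cast_le.2 n2)
  have l2 := (mul_le_mul_of_nonneg_left l1 b0.le).trans n4
  have l3 : exp (log W) = W := exp_log (by linarith)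
  obtain ⟨T, hT⟩ : ∃ T, T = E.card / (2 * ((k + 1) * 2 ^ (i + 1))) + 1 := ⟨_, rfl⟩
  have t1 : 2 * ((k + 1) * ((T - 1) * 2 ^ (i + 1))) ≤ E.card := by
    rw [hT, Nat.add_sub_cancel]
    exact le_trans (le_of_eq (by ring)) (Nat.div_mul_le_self _ (2 * ((k + 1) * 2 ^ (i + 1))))
  obtain ⟨S, hSE, hS, hdeg⟩ := hyp V V (fun t a => σ a t) E T (2 ^ (i + 1)) Q
    (fun t => log W + D0 * (1 - y ^ t)) (D0 - log W) (hT ▸ Nat.le_add_left 1 _) hV Q0
    (fun t v => by
      unfold deg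
      rcases (E.filter fun e => σ e t = v).eq_empty_or_nonempty with h0 | ⟨e, he⟩
      · rw [h0]; exact Nat.zero_le _
      obtain ⟨he1, rfl⟩ := mem_filter.1 he
      obtain ⟨n1, n2, -⟩ := hEm e he1
      refine le_trans (card_le_card fun a ha => ?_) ((hω _ (hB e n1 t)).1.trans
        ((hx _ (hB e n1 t)).2.2.2.le.trans (Nat.pow_le_pow_right two_pos ?_)))
      · obtain ⟨ha, hae⟩ := mem_filter.1 ha
        exact mem_filter.2 ⟨(hEm a ha).1, hae ▸ (hσ a (hEm a ha).1).2.1 t⟩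
      · exact Nat.succ_le_succ (((hσ e n1).2.2.1 t).trans n2.le)) t1
    (by
      have a1 : 2 ^ i ≤ Q * R * E.card := by
        refine le_trans ?_ (hNt 0)
        rw [← m3 0, m2]
        exact Nat.le_mul_of_pos_left _ (hEne.image _).card_pos
      have a2 : (T - 1) * 2 ^ i ≤ Q * R * E.card :=
        le_trans (le_trans (by rw [pow_succ]; nlinarith [Nat.zero_le ((T - 1) * 2 ^ i)]) t1)
          (Nat.le_mul_of_pos_left _ QR)
      have a3 : 2 ^ i * T ≤ E.card * W := by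
        obtain ⟨T, rfl⟩ : ∃ n, T = n + 1 := ⟨_, hT⟩
        rw [Nat.add_sub_cancel] at a2
        rw [hW]
        nlinarith [Nat.zero_le (k * (Q * R * E.card))]
      rw [exp_sub, d1, l3, div_mul_eq_mul_div, div_le_iff₀ (by linarith)]
      exact_mod_cast a3)
    (fun t => by
      have a1 : E.card ≤ 2 * ((k + 1) * 2 ^ (i + 1)) * T :=
        hT ▸ (Nat.lt_mul_div_succ _ (by positivity)).le
      have a2 : (E.image fun a => σ a t).card * 2 ^ τ t ≤ T * (W * 2 ^ i) :=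
        (hNt t).trans ((Nat.mul_le_mul_left _ a1).trans_eq (by rw [hW]; ring))
      have a3 := (hσ a0 m1).2.2.2 t
      rw [m2, m3 t] at a3
      have a4 : exp (D0 * y ^ (t : ℕ)) ≤ 2 ^ τ t := by
        rw [← exp_log (two_pos (α := ℝ)), ← exp_nat_mul, exp_le_exp, hD0, mul_right_comm]
        exact mul_le_mul_of_nonneg_right a3 (log_nonneg one_le_two)
      rw [mul_sub, mul_one, exp_add, exp_sub, l3, d1, ← mul_div_assoc, ← mul_div_assoc,
        le_div_iff₀ (exp_pos _)]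
      exact (mul_le_mul_of_nonneg_left a4 (Nat.cast_nonneg _)).trans (by exact_mod_cast a2))
    (prof hk y0 y1 l0 d0 (by
      have a := mul_le_mul_of_nonneg_right b1 l0
      have a' := mul_le_mul_of_nonneg_left l2 e1.le
      linarith))
    (by
      have a := mul_le_mul_of_nonneg_right b2 l0
      have a1 := mul_le_mul_of_nonneg_left l2 u0.le
      have a2 := mul_le_mul_of_nonneg_left (show (k + 1) * log W ≤ u * D0 by linarith)
        (show (0 : ℝ) ≤ k + 1 by positivity)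
      have a3 : 0 ≤ u * ((k + 1) * log W) := by positivity
      have a4 : 0 ≤ k * log W := by positivity
      have a5 : k * (D0 * (k - s1)) = (1 - 2 * u) * (k + 1) * D0 := by rw [← u1]; ring
      have a6 : (1 - u) * ((k + 1) * (D0 - log W)) = (1 - 2 * u) * (k + 1) * D0 +
        (k + 1) * (u * D0) - (k + 1) * log W + u * ((k + 1) * log W) := by ring
      simp only [kap, sum_add_distrib, sum_sub_distrib, ← mul_sum, sum_const, card_range,
        nsmul_eq_mul, mul_one, ← hs1]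
      rw [a6]
      linarith)
    (by
      have a := mul_le_mul_of_nonneg_right b3 (l0.trans l1)
      have a1 := mul_le_mul_of_nonneg_left n4 γ0.le
      have a2 := mul_le_mul_of_nonneg_left l1 γ0.le
      refine le_trans ?_ (exp_le_exp.2 (show log N0 ≤ γ * (D0 - log W) by linarith))
      rw [exp_log (show (0 : ℝ) < N0 by linarith), pow_zero, sub_self, mul_zero, add_zero, exp_add,
        l3, hN0, Nat.cast_mul _ (W * _), Nat.cast_pow, Nat.cast_mul W, Nat.cast_pow 3]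
      gcongr
      calc exp (2 * ((k : ℝ) + 1) ^ 3) = exp 1 ^ (2 * (k + 1) ^ 3) := by
            rw [← exp_nat_mul]
            push_cast
            rw [mul_one]
        _ ≤ _ := pow_le_pow_left₀ (exp_nonneg _) (by
            push_cast
            linarith [exp_one_lt_d9]) _)
  have hSA : ∀ a ∈ S, a ∈ A := fun a ha => (hEm a (hSE ha)).1
  exact bridge G k C S (fun t a => σ a t) χ hS
    (fun a ha t => (hN a (hSA a ha)).2.2 _ ((hσ a (hSA a ha)).2.1 t))
    (fun a ha t h1 => disjoint_left.1 hAB (hSA _ h1) (hB a (hSA a ha) t))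
    (fun a ha => (hEm a (hSE ha)).2.2.2) hC fun t e he =>
      ⟨(hdeg t e he).1, (Nat.cast_le.2 (hdeg t e he).2).trans_lt hC'⟩

end Pool.Agent.Work.MP_78fef3_co.Y
end
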